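import Mathlib

set_option autoImplicit false

/-!
# The `p`-adic part of the expected answer for `A = R_{K/ℚ}(𝔾_m)`

`K` is a number field, `p` a prime and `A = R_{K/ℚ}(𝔾_m)` the Weil restriction torus:
`A(ℚ) = Kˣ` and `A(ℚ_p) = (ℚ_p ⊗ K)ˣ`.
-/

namespace Pool.Agent.H441R2.Pad

open scoped TensorProduct

noncomputable section

/-- `ℚ_p ⊗ K` carries its topology of a finite-dimensional `ℚ_p`-vector space. -/
instance instTopologicalSpacePadic (K : Type) [Field K] [NumberField K] (p : ℕ)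
    [Fact p.Prime] : TopologicalSpace (ℚ_[p] ⊗[ℚ] K) :=
  moduleTopology ℚ_[p] (ℚ_[p] ⊗[ℚ] K)

instance instIsModuleTopologyPadic (K : Type) [Field K] [NumberField K] (p : ℕ)
    [Fact p.Prime] : IsModuleTopology ℚ_[p] (ℚ_[p] ⊗[ℚ] K) := ⟨rfl⟩

instance instIsTopologicalRingPadic (K : Type) [Field K] [NumberField K] (p : ℕ)
    [Fact p.Prime] : IsTopologicalRing (ℚ_[p] ⊗[ℚ] K) :=
  IsModuleTopology.isTopologicalRing ℚ_[p] (ℚ_[p] ⊗[ℚ] K)

/-- The group `A(ℚ_p) = (ℚ_p ⊗ K)ˣ` of `ℚ_p`-points of `A = R_{K/ℚ}(𝔾_m)` (a topological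
group: the units of the topological ring `ℚ_p ⊗ K`). -/
abbrev LocalPoints (K : Type) [Field K] [NumberField K] (p : ℕ) [Fact p.Prime] : Type :=
  (ℚ_[p] ⊗[ℚ] K)ˣ

/-- The inclusion `A(ℚ) = Kˣ → A(ℚ_p) = (ℚ_p ⊗ K)ˣ`, `x ↦ 1 ⊗ x`. -/
def toLocal (K : Type) [Field K] [NumberField K] (p : ℕ) [Fact p.Prime] :
    Kˣ →* LocalPoints K p :=
  Units.map (Algebra.TensorProduct.includeRight : K →ₐ[ℚ] ℚ_[p] ⊗[ℚ] K).toMonoidHom

/-- The `[K : ℚ]` embeddings of `K` into an algebraic closure of `ℚ_p`. -/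
abbrev Emb (K : Type) [Field K] [NumberField K] (p : ℕ) [Fact p.Prime] : Type :=
  K →ₐ[ℚ] AlgebraicClosure ℚ_[p]

/-- The coordinate `ℚ_p ⊗ K → \bar ℚ_p`, `a ⊗ x ↦ a τ(x)`, attached to an embedding `τ`. -/
def evalAt (K : Type) [Field K] [NumberField K] (p : ℕ) [Fact p.Prime] (τ : Emb K p) :
    ℚ_[p] ⊗[ℚ] K →ₐ[ℚ] AlgebraicClosure ℚ_[p] :=
  Algebra.TensorProduct.lift ((Algebra.ofId ℚ_[p] (AlgebraicClosure ℚ_[p])).restrictScalars ℚ) τ
    (fun _ _ => Commute.all _ _)

/-- The character of the torus `A` (defined over `\bar ℚ_p`) with exponents `χ : Emb K p → ℤ`,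
on `ℚ_p`-points: `u ↦ ∏_τ τ(u) ^ χ(τ)`. Over `\bar ℚ_p` the torus `A` is `𝔾_m ^ (Emb K p)`, so
these are all its characters. -/
def character (K : Type) [Field K] [NumberField K] (p : ℕ) [Fact p.Prime] (χ : Emb K p → ℤ) :
    LocalPoints K p →* (AlgebraicClosure ℚ_[p])ˣ :=
  ∏ τ : Emb K p, (Units.map (evalAt K p τ).toMonoidHom) ^ (χ τ)

/-- The group `B(ℚ_p)` for the algebraic subgroup `B ⊆ A` on which all the characters in `Ξ` are
trivial. Every algebraic subgroup of the torus `A` (defined over `ℚ`, over `ℚ_p` or over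
`\bar ℚ_p`) is the common kernel of a group `Ξ` of characters. -/
def algSubgroup (K : Type) [Field K] [NumberField K] (p : ℕ) [Fact p.Prime]
    (Ξ : Submodule ℤ (Emb K p → ℤ)) : Subgroup (LocalPoints K p) :=
  ⨅ χ ∈ Ξ, (character K p χ).ker

/-- The dimension of the algebraic subgroup `B ⊆ A` cut out by the group `Ξ` of characters. -/
def dimSubgroup (K : Type) [Field K] [NumberField K] (p : ℕ) [Fact p.Prime]
    (Ξ : Submodule ℤ (Emb K p → ℤ)) : ℕ :=
  Module.finrank ℚ K - Module.finrank ℤ Ξ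

/-- The rank of an abelian group (written multiplicatively). -/
def groupRank (G : Type) [CommGroup G] : ℕ := Module.finrank ℤ (Additive G)

/-- `L ⊆ A(ℚ)` is contained in a compact subgroup of `A(ℚ_p)`. -/
def InCompact (K : Type) [Field K] [NumberField K] (p : ℕ) [Fact p.Prime] (L : Subgroup Kˣ) :
    Prop :=
  ∃ C : Subgroup (LocalPoints K p), IsCompact (C : Set (LocalPoints K p)) ∧
    L.map (toLocal K p) ≤ C

/-- No algebraic subgroup `B ⊆ A` satisfies `rank (L ∩ B(ℚ_p)) > dim B`. -/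
def NoExcess (K : Type) [Field K] [NumberField K] (p : ℕ) [Fact p.Prime] (L : Subgroup Kˣ) :
    Prop :=
  ∀ Ξ : Submodule ℤ (Emb K p → ℤ),
    groupRank ↥(L ⊓ (algSubgroup K p Ξ).comap (toLocal K p)) ≤ dimSubgroup K p Ξ

/-- The closure of `L ⊆ A(ℚ)` in `A(ℚ_p)`. -/
def closureIn (K : Type) [Field K] [NumberField K] (p : ℕ) [Fact p.Prime] (L : Subgroup Kˣ) :
    Subgroup (LocalPoints K p) :=
  (L.map (toLocal K p)).topologicalClosure

/-- `M` is the maximal compact subgroup of the topological group `H`: it is a compact subgroup of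
`H` which contains every compact subgroup of `H`. -/
def IsMaximalCompact {G : Type} [Group G] [TopologicalSpace G] (M H : Subgroup G) : Prop :=
  M ≤ H ∧ IsCompact (M : Set G) ∧ ∀ C : Subgroup G, C ≤ H → IsCompact (C : Set G) → C ≤ M

/-- The topological group `M` is commensurable with `ℤ_p ^ ℓ`: some subgroup of finite index of
`M` is isomorphic, as a topological group, to a subgroup of finite index of `ℤ_p ^ ℓ`. -/
def CommensurableWithZp (p : ℕ) [Fact p.Prime] (ℓ : ℕ) (M : Type) [Group M]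
    [TopologicalSpace M] : Prop :=
  ∃ (U : Subgroup M) (W : Subgroup (Multiplicative (Fin ℓ → ℤ_[p]))),
    U.FiniteIndex ∧ W.FiniteIndex ∧ Nonempty (U ≃ₜ* W)

/-- The `p`-adic part of the expected answer for `A = R_{K/ℚ}(𝔾_m)`: for every finitely generated
`L ⊆ A(ℚ) = Kˣ` contained in a compact subgroup of `A(ℚ_p)`, if no algebraic subgroup `B ⊆ A` has
`rank (L ∩ B(ℚ_p)) > dim B`, then the maximal compact subgroup of the closure of `L` in `A(ℚ_p)`
is commensurable with `ℤ_p ^ ℓ`, where `ℓ = rank L`. -/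
def ExpectedAnswerPadic (K : Type) [Field K] [NumberField K] (p : ℕ) [Fact p.Prime] : Prop :=
  ∀ L : Subgroup Kˣ, L.FG → InCompact K p L → NoExcess K p L →
    ∀ M : Subgroup (LocalPoints K p), IsMaximalCompact M (closureIn K p L) →
      CommensurableWithZp p (groupRank L) M

end

end Pool.Agent.H441R2.Pad
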