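import Mathlib
import Pool.Agent.H441R2.Pad.Defs

set_option autoImplicit false

/-!
# The group `L`
-/

namespace Pool.Agent.H441R2.Pad

open scoped TensorProduct

instance fact_prime_seven : Fact (Nat.Prime 7) := ⟨by norm_num⟩

noncomputable section

/-- Data on a number field: three roots (up to sign) of `X ^ 6 - 14 X ^ 2 + 6`, a Galois group
that is transitive on them and contains every single sign change, and `7` splits completely. -/
structure FieldData (K : Type) [Field K] [NumberField K] where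
  /-- the roots -/
  θ : Fin 3 → K
  root : ∀ i, θ i ^ 6 - 14 * θ i ^ 2 + 6 = 0
  sq_inj : ∀ i j, θ i ^ 2 = θ j ^ 2 → i = j
  trans : ∀ i l, ∃ σ : K ≃ₐ[ℚ] K, σ (θ i) = θ l
  sgn : ∀ i, ∃ σ : K ≃ₐ[ℚ] K, σ (θ i) = - θ i ∧ ∀ l, l ≠ i → σ (θ l) = θ l
  split : Nat.card (K →ₐ[ℚ] ℚ_[7]) = Module.finrank ℚ K

/-- The four integers used in the example. -/
def xs : Fin 4 → ℤ := ![7, 49, 77, 91]

lemma xs_ne (j : Fin 4) : (xs j) ^ 6 - 14 * (xs j) ^ 2 + 6 ≠ 0 := by
  fin_cases j <;> norm_num [xs]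

lemma xs_dvd (j : Fin 4) : (7 : ℤ) ∣ xs j := by
  fin_cases j <;> norm_num [xs]

lemma xs_ne_zero (j : Fin 4) : xs j ≠ 0 := by
  fin_cases j <;> norm_num [xs]

namespace FieldData

variable {K : Type} [Field K] [NumberField K] (D : FieldData K)

lemma sub_ne (i : Fin 3) (j : Fin 4) : D.θ i - (xs j : K) ≠ 0 := by
  intro h
  have h1 : D.θ i = (xs j : K) := sub_eq_zero.mp h
  have h2 := D.root i
  rw [h1] at h2
  exact xs_ne j (by exact_mod_cast h2)

lemma add_ne (i : Fin 3) (j : Fin 4) : D.θ i + (xs j : K) ≠ 0 := by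
  intro h
  have h1 : D.θ i = -(xs j : K) := eq_neg_of_add_eq_zero_left h
  have h2 := D.root i
  rw [h1] at h2
  have h3 : ((xs j : K)) ^ 6 - 14 * (xs j : K) ^ 2 + 6 = 0 := by linear_combination h2
  exact xs_ne j (by exact_mod_cast h3)

/-- The element `(θ i - x j) / (θ i + x j)` of `Kˣ`. -/
def u (i : Fin 3) (j : Fin 4) : Kˣ :=
  Units.mk0 (D.θ i - (xs j : K)) (D.sub_ne i j) / Units.mk0 (D.θ i + (xs j : K)) (D.add_ne i j)

lemma u_val (i : Fin 3) (j : Fin 4) :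
    ((D.u i j : Kˣ) : K) = (D.θ i - (xs j : K)) / (D.θ i + (xs j : K)) := by
  simp [u]

end FieldData

/-- The parameter group `ℤ ^ 9`: a vector and a symmetric `3 × 3` matrix. -/
abbrev Par : Type := (Fin 3 → ℤ) × (Sym2 (Fin 3) → ℤ)

/-- The `3 × 4` matrix of exponents of a parameter: its first column is `n.1`, the other three
columns are the symmetric matrix `n.2`. -/
def expo (i : Fin 3) (j : Fin 4) : Par →+ ℤ :=
  Fin.cases ((Pi.evalAddMonoidHom (fun _ : Fin 3 => ℤ) i).comp (AddMonoidHom.fst _ _))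
    (fun j' => (Pi.evalAddMonoidHom (fun _ : Sym2 (Fin 3) => ℤ) s(i, j')).comp
      (AddMonoidHom.snd _ _)) j

@[simp] lemma expo_zero (n : Par) (i : Fin 3) : expo i 0 n = n.1 i := rfl

@[simp] lemma expo_succ (n : Par) (i j : Fin 3) : expo i j.succ n = n.2 s(i, j) := rfl

namespace FieldData

variable {K : Type} [Field K] [NumberField K] (D : FieldData K)

/-- The homomorphism `ℤ ^ 9 → Kˣ`, `n ↦ ∏ u i j ^ (expo i j n)`. -/
def Psi : Multiplicative Par →* Kˣ where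
  toFun n := ∏ i, ∏ j, (D.u i j) ^ (expo i j n.toAdd)
  map_one' := by simp
  map_mul' a b := by
    simp only [toAdd_mul, map_add, zpow_add, Finset.prod_mul_distrib]

/-- The group `L`. -/
def L : Subgroup Kˣ := D.Psi.range

end FieldData

/-! ## The statements of the tasks -/

/-- T1: the `p`-adic logarithm on principal units. -/
def T1 : Prop :=
  ∀ (p : ℕ) [Fact p.Prime], p ≠ 2 →
    ∃ lg : ℤ_[p] → ℤ_[p],
      (∀ u v : ℤ_[p], (p : ℤ_[p]) ∣ u - 1 → (p : ℤ_[p]) ∣ v - 1 → lg (u * v) = lg u + lg v) ∧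
      (∀ u : ℤ_[p], (p : ℤ_[p]) ∣ u - 1 → lg u = 0 → u = 1) ∧
      ContinuousOn lg {u | (p : ℤ_[p]) ∣ u - 1}

/-- T2: the field. -/
def T2 : Prop :=
  ∃ (K : Type) (_ : Field K) (_ : NumberField K), Nonempty (FieldData K)

/-- T3: multiplicative independence. -/
def T3 : Prop :=
  ∀ (K : Type) [Field K] [NumberField K] (D : FieldData K) (m : Fin 3 → Fin 4 → ℤ),
    (∏ i, ∏ j, (D.u i j) ^ (m i j)) = 1 → m = 0

/-- T4: linear algebra over an arbitrary field `Ω` in which things split. -/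
def T4 : Prop :=
  ∀ (K : Type) [Field K] [NumberField K] (D : FieldData K) (Ω : Type) [Field Ω] [CharZero Ω]
    (_ : ∀ m : Fin 3 → Fin 4 → ℤ, (∏ i, ∏ j, (D.u i j) ^ (m i j)) = 1 → m = 0)
    (_ : Nonempty (K →ₐ[ℚ] Ω)) (_ : Nat.card (K →ₐ[ℚ] Ω) = Module.finrank ℚ K)
    (Ξ : Submodule ℤ ((K →ₐ[ℚ] Ω) → ℤ)) (N : Submodule ℤ Par),
    (∀ n ∈ N, ∀ χ ∈ Ξ, ∏ τ : K →ₐ[ℚ] Ω,
      (τ ((D.Psi (Multiplicative.ofAdd n) : Kˣ) : K)) ^ (χ τ) = 1) →
    Module.finrank ℤ N + Module.finrank ℤ Ξ ≤ Module.finrank ℚ K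

end

end Pool.Agent.H441R2.Pad
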