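import Mathlib
import Pool.Agent.H441R2.Pad.Core

set_option autoImplicit false

/-!
# T1: the `p`-adic logarithm on principal units (helper143)
-/

namespace Pool.Agent.H441R2.Pad

open Filter Topology

noncomputable section

namespace PLog

variable {p : ℕ} [hp : Fact p.Prime]

lemma pow_expand (y : ℤ_[p]) (hodd : p ≠ 2) : ∃ m K : ℤ_[p],
    (1 + y) ^ p - 1 = y * (p + y * (p * m) + y ^ 2 * K) := by
  have h1 : ∀ i : ℕ, ∃ k : ℤ_[p], (1 + y) ^ i = 1 + i * y + k * y ^ 2 := by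
    intro i
    refine ⟨(Polynomial.powAddExpansion (1 : ℤ_[p]) y i).1, ?_⟩
    have := (Polynomial.powAddExpansion (1 : ℤ_[p]) y i).2
    simpa using this
  choose k hk using h1
  obtain ⟨m, hm⟩ : ∃ m : ℕ, p = 2 * m + 1 := by
    obtain ⟨m, hm⟩ := hp.out.odd_of_ne_two hodd
    exact ⟨m, hm⟩
  refine ⟨m, ∑ i ∈ Finset.range p, k i, ?_⟩
  have h2 := geom_sum_mul (1 + y) p
  rw [add_sub_cancel_left] at h2
  rw [← h2, mul_comm]
  congr 1
  rw [Finset.sum_congr rfl fun i _ => hk i, Finset.sum_add_distrib, Finset.sum_add_distrib,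
    ← Finset.sum_mul, ← Finset.sum_mul]
  have h3 : (∑ i ∈ Finset.range p, (i : ℤ_[p])) = p * m := by
    have h4 : ∑ i ∈ Finset.range p, i = p * m := by
      have h5 := Finset.sum_range_id_mul_two p
      have h6 : p - 1 = 2 * m := by omega
      rw [h6] at h5
      have : 2 * ∑ i ∈ Finset.range p, i = 2 * (p * m) := by linarith
      omega
    have := congrArg (Nat.cast : ℕ → ℤ_[p]) h4
    push_cast at this
    exact this
  rw [h3]
  simp
  ring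

lemma pn_dvd {u : ℤ_[p]} (hu : (p : ℤ_[p]) ∣ u - 1) (n : ℕ) :
    (p : ℤ_[p]) ^ (n + 1) ∣ u ^ p ^ n - 1 := by
  have := dvd_sub_pow_of_dvd_sub hu n
  simpa using this

open Classical in
/-- the approximations of the logarithm -/
def s (n : ℕ) (u : ℤ_[p]) : ℤ_[p] :=
  if h : (p : ℤ_[p]) ^ (n + 1) ∣ u ^ p ^ n - 1 then Classical.choose h else 0

lemma s_spec {u : ℤ_[p]} (hu : (p : ℤ_[p]) ∣ u - 1) (n : ℕ) :
    u ^ p ^ n - 1 = (p : ℤ_[p]) ^ (n + 1) * s n u := by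
  have h := pn_dvd hu n
  rw [s, dif_pos h]
  exact Classical.choose_spec h

lemma p_ne : (p : ℤ_[p]) ≠ 0 := by
  exact_mod_cast hp.out.ne_zero

lemma pow_p_ne (n : ℕ) : (p : ℤ_[p]) ^ n ≠ 0 := pow_ne_zero n p_ne

lemma s_succ (hodd : p ≠ 2) {u : ℤ_[p]} (hu : (p : ℤ_[p]) ∣ u - 1) (n : ℕ) :
    ∃ z : ℤ_[p], s (n + 1) u - s n u = (p : ℤ_[p]) ^ (n + 1) * z := by
  have h1 := s_spec hu n
  have h2 := s_spec hu (n + 1)
  obtain ⟨m, K, hmK⟩ := pow_expand (u ^ p ^ n - 1) hodd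
  have h3 : (1 + (u ^ p ^ n - 1)) ^ p = u ^ p ^ (n + 1) := by
    rw [add_sub_cancel, ← pow_mul, pow_succ]
  rw [h3, h2, h1] at hmK
  refine ⟨s n u ^ 2 * (m + p ^ n * s n u * K), ?_⟩
  apply mul_left_cancel₀ (pow_p_ne (n + 1 + 1))
  rw [mul_sub, hmK]
  ring

lemma norm_p_pow_le (n : ℕ) (z : ℤ_[p]) :
    ‖(p : ℤ_[p]) ^ n * z‖ ≤ (1 / (p : ℝ)) ^ n := by
  rw [norm_mul, norm_pow, PadicInt.norm_p, one_div]
  exact mul_le_of_le_one_right (by positivity) (PadicInt.norm_le_one z)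

lemma s_cauchy (hodd : p ≠ 2) {u : ℤ_[p]} (hu : (p : ℤ_[p]) ∣ u - 1) :
    CauchySeq fun n => s n u := by
  have hp1 : (1 : ℝ) < p := by exact_mod_cast hp.out.one_lt
  apply cauchySeq_of_le_geometric (1 / (p : ℝ)) 1
  · rw [div_lt_one (by linarith)]
    exact hp1
  · intro n
    obtain ⟨z, hz⟩ := s_succ hodd hu n
    rw [dist_comm, dist_eq_norm, hz]
    refine (norm_p_pow_le (n + 1) z).trans ?_
    rw [one_mul, pow_succ]
    apply mul_le_of_le_one_right (by positivity)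
    rw [div_le_one (by linarith)]
    exact hp1.le

/-- the logarithm -/
def lg (u : ℤ_[p]) : ℤ_[p] := limUnder atTop fun n => s n u

lemma s_tendsto (hodd : p ≠ 2) {u : ℤ_[p]} (hu : (p : ℤ_[p]) ∣ u - 1) :
    Tendsto (fun n => s n u) atTop (𝓝 (lg u)) :=
  (s_cauchy hodd hu).tendsto_limUnder

lemma mul_principal {u v : ℤ_[p]} (hu : (p : ℤ_[p]) ∣ u - 1) (hv : (p : ℤ_[p]) ∣ v - 1) :
    (p : ℤ_[p]) ∣ u * v - 1 := by
  have : u * v - 1 = (u - 1) * v + (v - 1) := by ring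
  rw [this]
  exact dvd_add (hu.mul_right v) hv

lemma lg_mul (hodd : p ≠ 2) {u v : ℤ_[p]} (hu : (p : ℤ_[p]) ∣ u - 1) (hv : (p : ℤ_[p]) ∣ v - 1) :
    lg (u * v) = lg u + lg v := by
  have h1 := s_tendsto hodd (mul_principal hu hv)
  have hp1 : (1 : ℝ) < p := by exact_mod_cast hp.out.one_lt
  have h2 : ∀ n, s n (u * v) = (p : ℤ_[p]) ^ (n + 1) * (s n u * s n v) + (s n u + s n v) := by
    intro n
    have e1 := s_spec hu n
    have e2 := s_spec hv n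
    have e3 := s_spec (mul_principal hu hv) n
    apply mul_left_cancel₀ (pow_p_ne (p := p) (n + 1))
    rw [← e3, mul_pow]
    have e4 : u ^ p ^ n = 1 + (p : ℤ_[p]) ^ (n + 1) * s n u := by rw [← e1]; ring
    have e5 : v ^ p ^ n = 1 + (p : ℤ_[p]) ^ (n + 1) * s n v := by rw [← e2]; ring
    rw [e4, e5]
    ring
  have h3 : Tendsto (fun n => (p : ℤ_[p]) ^ (n + 1) * (s n u * s n v)) atTop (𝓝 0) := by
    apply squeeze_zero_norm (fun n => norm_p_pow_le (n + 1) (s n u * s n v))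
    have h4 : Tendsto (fun n : ℕ => (1 / (p : ℝ)) ^ n) atTop (𝓝 0) := by
      apply tendsto_pow_atTop_nhds_zero_of_lt_one (by positivity)
      rw [div_lt_one (by linarith)]
      exact hp1
    exact h4.comp (tendsto_add_atTop_nat 1)
  have h4 : Tendsto (fun n => s n (u * v)) atTop (𝓝 (0 + (lg u + lg v))) := by
    simp_rw [h2]
    exact h3.add ((s_tendsto hodd hu).add (s_tendsto hodd hv))
  rw [zero_add] at h4
  exact tendsto_nhds_unique h1 h4

lemma norm_pow_sub (hodd : p ≠ 2) {x : ℤ_[p]} (hx : (p : ℤ_[p]) ∣ x - 1) :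
    ‖x ^ p - 1‖ = ‖x - 1‖ * (p : ℝ)⁻¹ := by
  obtain ⟨m, K, hmK⟩ := pow_expand (x - 1) hodd
  rw [add_sub_cancel] at hmK
  obtain ⟨y, hy⟩ := hx
  have h1 : x ^ p - 1 = (x - 1) * ((p : ℤ_[p]) * (1 + p * (y * m + y ^ 2 * K))) := by
    rw [hmK, hy]
    ring
  rw [h1, norm_mul, norm_mul, PadicInt.norm_p]
  have h2 : ‖1 + (p : ℤ_[p]) * (y * m + y ^ 2 * K)‖ = 1 := by
    have h3 : ‖(p : ℤ_[p]) * (y * m + y ^ 2 * K)‖ < ‖(1 : ℤ_[p])‖ := by
      rw [norm_one, PadicInt.norm_lt_one_iff_dvd]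
      exact Dvd.intro _ rfl
    rw [PadicInt.norm_add_eq_max_of_ne h3.ne', max_eq_left h3.le, norm_one]
  rw [h2, mul_one]

lemma principal_pow {u : ℤ_[p]} (hu : (p : ℤ_[p]) ∣ u - 1) (n : ℕ) :
    (p : ℤ_[p]) ∣ u ^ p ^ n - 1 :=
  (dvd_pow_self _ (Nat.succ_ne_zero n)).trans (pn_dvd hu n)

lemma norm_pow_pn (hodd : p ≠ 2) {u : ℤ_[p]} (hu : (p : ℤ_[p]) ∣ u - 1) (n : ℕ) :
    ‖u ^ p ^ n - 1‖ = ‖u - 1‖ * ((p : ℝ)⁻¹) ^ n := by
  induction n with
  | zero => simp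
  | succ n ih =>
    rw [pow_succ, pow_mul, norm_pow_sub hodd (principal_pow hu n), ih, pow_succ]
    ring

lemma norm_s (hodd : p ≠ 2) {u : ℤ_[p]} (hu : (p : ℤ_[p]) ∣ u - 1) (n : ℕ) :
    ‖s n u‖ = p * ‖u - 1‖ := by
  have h1 := norm_pow_pn hodd hu n
  rw [s_spec hu n, norm_mul, norm_pow, PadicInt.norm_p, pow_succ] at h1
  have hp0 : (0 : ℝ) < p := by exact_mod_cast hp.out.pos
  have h2 : (0 : ℝ) < ((p : ℝ)⁻¹) ^ n := by positivity
  have h3 : ((p : ℝ)⁻¹) ^ n * ((p : ℝ)⁻¹ * ‖s n u‖) = ((p : ℝ)⁻¹) ^ n * ‖u - 1‖ := by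
    rw [← mul_assoc, h1]
    ring
  have h4 := mul_left_cancel₀ h2.ne' h3
  rw [← h4]
  field_simp

lemma norm_lg (hodd : p ≠ 2) {u : ℤ_[p]} (hu : (p : ℤ_[p]) ∣ u - 1) :
    ‖lg u‖ = p * ‖u - 1‖ := by
  have h1 := (s_tendsto hodd hu).norm
  simp_rw [norm_s hodd hu] at h1
  exact (tendsto_nhds_unique h1 tendsto_const_nhds)

lemma exists_inv {v : ℤ_[p]} (hv : (p : ℤ_[p]) ∣ v - 1) :
    ∃ w : ℤ_[p], v * w = 1 ∧ (p : ℤ_[p]) ∣ w - 1 := by
  have h1 : ‖v‖ = 1 := by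
    have h2 : ‖v - 1‖ < ‖(1 : ℤ_[p])‖ := by
      rw [norm_one, PadicInt.norm_lt_one_iff_dvd]
      exact hv
    have h3 : v = 1 + (v - 1) := by ring
    rw [h3, PadicInt.norm_add_eq_max_of_ne h2.ne', max_eq_left h2.le, norm_one]
  obtain ⟨w, hw⟩ := (PadicInt.isUnit_iff.2 h1).exists_right_inv
  refine ⟨w, hw, ?_⟩
  have h2 : w - 1 = -((v - 1) * w) := by linear_combination hw
  rw [h2]
  exact (hv.mul_right w).neg_right

lemma lg_sub (hodd : p ≠ 2) {u v : ℤ_[p]} (hu : (p : ℤ_[p]) ∣ u - 1) (hv : (p : ℤ_[p]) ∣ v - 1) :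
    ‖lg u - lg v‖ = p * ‖u - v‖ := by
  obtain ⟨w, hw1, hw2⟩ := exists_inv hv
  have h1 : lg u = lg (u * w) + lg v := by
    rw [← lg_mul hodd (mul_principal hu hw2) hv]
    congr 1
    linear_combination (-u) * hw1
  have h2 : u * w - 1 = (u - v) * w := by linear_combination hw1
  have h3 : ‖w‖ = 1 := by
    have := congrArg norm hw1
    rw [norm_mul, norm_one] at this
    have h4 := PadicInt.norm_le_one v
    have h5 := PadicInt.norm_le_one w
    nlinarith [norm_nonneg v, norm_nonneg w]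
  rw [h1, add_sub_cancel_right, norm_lg hodd (mul_principal hu hw2), h2, norm_mul, h3, mul_one]

end PLog

open PLog in
/-- T1: the `p`-adic logarithm on principal units. -/
theorem t1 : T1 := by
  intro p hp hodd
  refine ⟨lg, fun u v hu hv => lg_mul hodd hu hv, fun u hu h => ?_, ?_⟩
  · have h1 := norm_lg hodd hu
    rw [h, norm_zero] at h1
    have hp0 : (0 : ℝ) < p := by exact_mod_cast hp.out.pos
    have h2 : ‖u - 1‖ = 0 := by
      rcases mul_eq_zero.1 h1.symm with h2 | h2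
      · exact absurd h2 hp0.ne'
      · exact h2
    exact sub_eq_zero.1 (norm_eq_zero.1 h2)
  · have h1 : LipschitzOnWith (p : NNReal) (lg : ℤ_[p] → ℤ_[p]) {u | (p : ℤ_[p]) ∣ u - 1} := by
      apply LipschitzOnWith.of_dist_le_mul
      intro u hu v hv
      rw [dist_eq_norm, dist_eq_norm, lg_sub hodd hu hv]
      simp
    exact h1.continuousOn

end

end Pool.Agent.H441R2.Pad
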