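import Pool.Agent.H441R2.Pad.Core

set_option autoImplicit false

/-!
# Task 4: the rank bound
-/

namespace Pool.Agent.H441R2.Pad

noncomputable section

namespace Task4

/-! ### Ranks of `ℤ`-modules inside `ℚ`-vector spaces -/

theorem rank_le {M V : Type} [AddCommGroup M] [Module.Free ℤ M] [Module.Finite ℤ M]
    [AddCommGroup V] [Module ℚ V] [Module.Finite ℚ V]
    (N : Submodule ℤ M) (f : M →ₗ[ℤ] V) (hf : Function.Injective f) (W : Submodule ℚ V)
    (h : ∀ n ∈ N, f n ∈ W) : Module.finrank ℤ N ≤ Module.finrank ℚ W := by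
  classical
  let b := Module.Free.chooseBasis ℤ N
  rw [Module.finrank_eq_card_chooseBasisIndex]
  have h1 : LinearIndependent ℤ (fun i => f ((b i : N) : M)) := by
    have h2 := b.linearIndependent.map' (f ∘ₗ N.subtype) (by
      rw [LinearMap.ker_eq_bot]
      exact hf.comp N.injective_subtype)
    exact h2
  have h3 : LinearIndependent ℚ (fun i => f ((b i : N) : M)) :=
    (LinearIndependent.iff_fractionRing ℤ ℚ).1 h1
  have h4 : LinearIndependent ℚ (fun i => (⟨f ((b i : N) : M), h _ (b i).2⟩ : W)) := by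
    apply LinearIndependent.of_comp W.subtype
    exact h3
  exact h4.fintype_card_le_finrank

/-! ### the roots -/

lemma root_cases {F : Type} [Field F] {a b c y : F} (hab : a ≠ b) (hac : a ≠ c) (hbc : b ≠ c)
    (ha : a ^ 3 - 14 * a + 6 = 0) (hb : b ^ 3 - 14 * b + 6 = 0) (hc : c ^ 3 - 14 * c + 6 = 0)
    (hy : y ^ 3 - 14 * y + 6 = 0) : y = a ∨ y = b ∨ y = c := by
  by_contra h
  push Not at h
  obtain ⟨h1, h2, h3⟩ := h
  have e1 : a ^ 2 + a * b + b ^ 2 - 14 = 0 := by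
    have : (a - b) * (a ^ 2 + a * b + b ^ 2 - 14) = 0 := by linear_combination ha - hb
    exact (mul_eq_zero.1 this).resolve_left (sub_ne_zero.2 hab)
  have e2 : a ^ 2 + a * c + c ^ 2 - 14 = 0 := by
    have : (a - c) * (a ^ 2 + a * c + c ^ 2 - 14) = 0 := by linear_combination ha - hc
    exact (mul_eq_zero.1 this).resolve_left (sub_ne_zero.2 hac)
  have e3 : a ^ 2 + a * y + y ^ 2 - 14 = 0 := by
    have : (a - y) * (a ^ 2 + a * y + y ^ 2 - 14) = 0 := by linear_combination ha - hy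
    exact (mul_eq_zero.1 this).resolve_left (sub_ne_zero.2 (Ne.symm h1))
  have e4 : a + b + c = 0 := by
    have : (b - c) * (a + b + c) = 0 := by linear_combination e1 - e2
    exact (mul_eq_zero.1 this).resolve_left (sub_ne_zero.2 hbc)
  have e5 : a + b + y = 0 := by
    have : (b - y) * (a + b + y) = 0 := by linear_combination e1 - e3
    exact (mul_eq_zero.1 this).resolve_left (sub_ne_zero.2 (Ne.symm h2))
  exact h3 (by linear_combination e5 - e4)

variable {K : Type} [Field K] [NumberField K] (D : FieldData K) {Ω : Type} [Field Ω] [CharZero Ω]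

lemma θ_ne (i : Fin 3) : D.θ i ≠ 0 := by
  intro h
  have := D.root i
  rw [h] at this
  norm_num at this

/-- for every embedding `τ` and every `i` there is `l` with `τ (θ i) = ± t l` -/
lemma exists_l (τ₀ τ : K →ₐ[ℚ] Ω) (i : Fin 3) :
    ∃ l, τ (D.θ i) = τ₀ (D.θ l) ∨ τ (D.θ i) = - τ₀ (D.θ l) := by
  have hroot : ∀ (τ : K →ₐ[ℚ] Ω) (i : Fin 3), ((τ (D.θ i)) ^ 2) ^ 3 - 14 * (τ (D.θ i)) ^ 2 + 6 = 0 := by
    intro τ i
    have h1 := congrArg τ (D.root i)
    simp only [map_add, map_sub, map_mul, map_pow, map_zero, map_ofNat] at h1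
    linear_combination h1
  have hne : ∀ l m : Fin 3, l ≠ m → (τ₀ (D.θ l)) ^ 2 ≠ (τ₀ (D.θ m)) ^ 2 := by
    intro l m hlm h
    rw [← map_pow, ← map_pow] at h
    exact hlm (D.sq_inj l m (τ₀.injective h))
  rcases root_cases (hne 0 1 (by decide)) (hne 0 2 (by decide)) (hne 1 2 (by decide))
    (hroot τ₀ 0) (hroot τ₀ 1) (hroot τ₀ 2) (hroot τ i) with h | h | h
  · exact ⟨0, sq_eq_sq_iff_eq_or_eq_neg.1 h⟩
  · exact ⟨1, sq_eq_sq_iff_eq_or_eq_neg.1 h⟩
  · exact ⟨2, sq_eq_sq_iff_eq_or_eq_neg.1 h⟩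

/-- the signed permutation matrix of an embedding -/
def P (τ₀ τ : K →ₐ[ℚ] Ω) (l i : Fin 3) : ℤ :=
  open Classical in
  if τ (D.θ i) = τ₀ (D.θ l) then 1 else if τ (D.θ i) = - τ₀ (D.θ l) then -1 else 0

lemma t_ne (τ₀ : K →ₐ[ℚ] Ω) (l : Fin 3) : τ₀ (D.θ l) ≠ 0 := by
  intro h
  exact θ_ne D l (τ₀.injective (h.trans (map_zero τ₀).symm))

lemma t_inj (τ₀ : K →ₐ[ℚ] Ω) {l m : Fin 3} (h : τ₀ (D.θ l) = τ₀ (D.θ m)) : l = m :=
  D.sq_inj l m (by rw [τ₀.injective h])

lemma t_inj' (τ₀ : K →ₐ[ℚ] Ω) {l m : Fin 3} (h : τ₀ (D.θ l) = - τ₀ (D.θ m)) : l = m := by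
  refine D.sq_inj l m ?_
  rw [← map_neg] at h
  rw [τ₀.injective h, neg_sq]

lemma P_of_eq {τ₀ τ : K →ₐ[ℚ] Ω} {l i : Fin 3} (h : τ (D.θ i) = τ₀ (D.θ l)) (a : Fin 3) :
    P D τ₀ τ a i = if a = l then 1 else 0 := by
  classical
  unfold P
  by_cases ha : a = l
  · subst ha; simp [h]
  · rw [if_neg, if_neg, if_neg ha]
    · rw [h]; intro h'; exact ha (t_inj' D τ₀ h').symm
    · rw [h]; intro h'; exact ha (t_inj D τ₀ h').symm

lemma P_of_neg {τ₀ τ : K →ₐ[ℚ] Ω} {l i : Fin 3} (h : τ (D.θ i) = - τ₀ (D.θ l)) (a : Fin 3) :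
    P D τ₀ τ a i = if a = l then -1 else 0 := by
  classical
  have h2 : (2 : Ω) ≠ 0 := two_ne_zero
  unfold P
  by_cases ha : a = l
  · subst ha
    rw [if_neg, if_pos h, if_pos rfl]
    rw [h]
    intro h'
    have : (2 : Ω) * τ₀ (D.θ a) = 0 := by linear_combination - h'
    rcases mul_eq_zero.1 this with h3 | h3
    · exact h2 h3
    · exact t_ne D τ₀ a h3
  · rw [if_neg, if_neg, if_neg ha]
    · rw [h]; intro h'; exact ha (t_inj D τ₀ (neg_injective h')).symm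
    · rw [h]; intro h'
      exact ha (t_inj' D τ₀ (show τ₀ (D.θ a) = - τ₀ (D.θ l) from h'.symm))

/-- `τ` on units -/
def um (τ : K →ₐ[ℚ] Ω) : Kˣ →* Ωˣ := Units.map τ.toRingHom.toMonoidHom

lemma um_val (τ : K →ₐ[ℚ] Ω) (x : Kˣ) : ((um τ x : Ωˣ) : Ω) = τ (x : K) := rfl

lemma um_inj (τ : K →ₐ[ℚ] Ω) : Function.Injective (um τ) := by
  intro a b h
  have h1 := congrArg (fun z : Ωˣ => (z : Ω)) h
  simp only [um_val] at h1
  exact Units.ext (τ.injective h1)

/-- the conjugates of the `u i j` -/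
lemma um_u (τ₀ τ : K →ₐ[ℚ] Ω) (i : Fin 3) (j : Fin 4) :
    um τ (D.u i j) = ∏ l, (um τ₀ (D.u l j)) ^ (P D τ₀ τ l i) := by
  obtain ⟨l, h | h⟩ := exists_l D τ₀ τ i
  · rw [Finset.prod_eq_single l]
    · rw [P_of_eq D h, if_pos rfl, zpow_one]
      apply Units.ext
      rw [um_val, um_val, D.u_val, D.u_val]
      simp [h]
    · intro b _ hb
      rw [P_of_eq D h, if_neg hb, zpow_zero]
    · simp
  · rw [Finset.prod_eq_single l]
    · rw [P_of_neg D h, if_pos rfl, zpow_neg_one]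
      apply Units.ext
      rw [Units.val_inv_eq_inv_val, um_val, um_val, D.u_val, D.u_val]
      simp only [map_div₀, map_sub, map_add, h, map_intCast]
      rw [inv_div, ← neg_div_neg_eq]
      congr 1 <;> ring
    · intro b _ hb
      rw [P_of_neg D h, if_neg hb, zpow_zero]
    · simp

lemma zp_sum {ι G : Type} [CommGroup G] (a : G) (s : Finset ι) (f : ι → ℤ) :
    a ^ (∑ i ∈ s, f i) = ∏ i ∈ s, a ^ (f i) := by
  classical
  induction s using Finset.induction_on with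
  | empty => simp
  | insert b s hb ih => rw [Finset.sum_insert hb, Finset.prod_insert hb, zpow_add, ih]

lemma prod_swap {α β γ δ G : Type} [Fintype α] [Fintype β] [Fintype γ] [Fintype δ] [CommGroup G]
    (F : α → β → γ → δ → G) :
    ∏ l, ∏ j, ∏ t, ∏ i, F t i j l = ∏ t, ∏ i, ∏ j, ∏ l, F t i j l := by
  have e1 : ∀ l, ∏ j, ∏ t, ∏ i, F t i j l = ∏ t, ∏ j, ∏ i, F t i j l := fun l =>
    Finset.prod_comm
  simp_rw [e1]
  rw [Finset.prod_comm]
  refine Finset.prod_congr rfl fun t _ => ?_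
  have e2 : ∀ l, ∏ j, ∏ i, F t i j l = ∏ i, ∏ j, F t i j l := fun l => Finset.prod_comm
  simp_rw [e2]
  rw [Finset.prod_comm]
  exact Finset.prod_congr rfl fun i _ => Finset.prod_comm

/-- the matrix of `χ` -/
def X (τ₀ : K →ₐ[ℚ] Ω) (χ : (K →ₐ[ℚ] Ω) → ℤ) (l i : Fin 3) : ℤ := ∑ τ, χ τ * P D τ₀ τ l i

lemma key (τ₀ : K →ₐ[ℚ] Ω)
    (hind : ∀ m : Fin 3 → Fin 4 → ℤ, (∏ i, ∏ j, (D.u i j) ^ (m i j)) = 1 → m = 0)
    (n : Par) (χ : (K →ₐ[ℚ] Ω) → ℤ)
    (h : ∏ τ : K →ₐ[ℚ] Ω, (τ ((D.Psi (Multiplicative.ofAdd n) : Kˣ) : K)) ^ (χ τ) = 1)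
    (l : Fin 3) (j : Fin 4) : ∑ i, X D τ₀ χ l i * expo i j n = 0 := by
  have h1 : ∏ τ : K →ₐ[ℚ] Ω, (um τ (D.Psi (Multiplicative.ofAdd n))) ^ (χ τ) = 1 := by
    apply Units.ext
    rw [Units.coe_prod, Units.val_one, ← h]
    refine Finset.prod_congr rfl fun τ _ => ?_
    rw [Units.val_zpow_eq_zpow_val, um_val]
  have h2 : ∀ τ : K →ₐ[ℚ] Ω, um τ (D.Psi (Multiplicative.ofAdd n))
      = ∏ i, ∏ j, ∏ l, (um τ₀ (D.u l j)) ^ (P D τ₀ τ l i * expo i j n) := by
    intro τ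
    have : D.Psi (Multiplicative.ofAdd n) = ∏ i, ∏ j, (D.u i j) ^ (expo i j n) := rfl
    rw [this, map_prod]
    refine Finset.prod_congr rfl fun i _ => ?_
    rw [map_prod]
    refine Finset.prod_congr rfl fun j _ => ?_
    rw [map_zpow, um_u D τ₀, ← Finset.prod_zpow]
    refine Finset.prod_congr rfl fun l _ => ?_
    rw [zpow_mul]
  have h3 : um τ₀ (∏ l, ∏ j, (D.u l j) ^ (∑ i, X D τ₀ χ l i * expo i j n)) = 1 := by
    rw [← h1, map_prod]
    have e0 : ∀ l, um τ₀ (∏ j, (D.u l j) ^ (∑ i, X D τ₀ χ l i * expo i j n))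
        = ∏ j, ∏ τ : K →ₐ[ℚ] Ω, ∏ i,
          (um τ₀ (D.u l j)) ^ (P D τ₀ τ l i * expo i j n * χ τ) := by
      intro l
      rw [map_prod]
      refine Finset.prod_congr rfl fun j _ => ?_
      rw [map_zpow]
      have e1 : ∑ i, X D τ₀ χ l i * expo i j n
          = ∑ τ : K →ₐ[ℚ] Ω, ∑ i, P D τ₀ τ l i * expo i j n * χ τ := by
        simp_rw [X, Finset.sum_mul]
        rw [Finset.sum_comm]
        exact Finset.sum_congr rfl fun τ _ => Finset.sum_congr rfl fun i _ => by ring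
      rw [e1, zp_sum]
      exact Finset.prod_congr rfl fun τ _ => zp_sum _ _ _
    simp_rw [e0]
    rw [prod_swap (fun τ i j l => (um τ₀ (D.u l j)) ^ (P D τ₀ τ l i * expo i j n * χ τ))]
    refine Finset.prod_congr rfl fun τ _ => ?_
    rw [h2]
    simp_rw [← Finset.prod_zpow, ← zpow_mul]
  have h4 := um_inj τ₀ (h3.trans (map_one (um τ₀)).symm)
  have h5 := hind _ h4
  exact congrFun (congrFun h5 l) j

/-! ### linear algebra -/

/-- the rational matrix of a rational `χ` -/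
def Phi (τ₀ : K →ₐ[ℚ] Ω) : ((K →ₐ[ℚ] Ω) → ℚ) →ₗ[ℚ] Matrix (Fin 3) (Fin 3) ℚ where
  toFun χ := Matrix.of fun l i => ∑ τ, χ τ * (P D τ₀ τ l i : ℚ)
  map_add' a b := by
    ext l i
    simp [add_mul, Finset.sum_add_distrib]
  map_smul' c a := by
    ext l i
    simp [mul_assoc, Finset.mul_sum]

lemma Phi_apply (τ₀ : K →ₐ[ℚ] Ω) (χ : (K →ₐ[ℚ] Ω) → ℚ) (l i : Fin 3) :
    Phi D τ₀ χ l i = ∑ τ, χ τ * (P D τ₀ τ l i : ℚ) := rfl

lemma Phi_surj (τ₀ : K →ₐ[ℚ] Ω) : Function.Surjective (Phi D τ₀) := by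
  classical
  have hv : ∀ l i : Fin 3, ∃ v : (K →ₐ[ℚ] Ω) → ℚ,
      ∀ a b, Phi D τ₀ v a b = if a = l ∧ b = i then 1 else 0 := by
    intro l i
    obtain ⟨σ, hσ⟩ := D.trans i l
    obtain ⟨s, hs, hs'⟩ := D.sgn i
    let τ₁ : K →ₐ[ℚ] Ω := τ₀.comp σ.toAlgHom
    let τ₂ : K →ₐ[ℚ] Ω := τ₁.comp s.toAlgHom
    have h1 : τ₁ (D.θ i) = τ₀ (D.θ l) := by
      show τ₀ (σ (D.θ i)) = _
      rw [hσ]
    have h2 : τ₂ (D.θ i) = - τ₀ (D.θ l) := by
      show τ₁ (s (D.θ i)) = _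
      rw [hs, map_neg, h1]
    have h3 : ∀ b, b ≠ i → τ₂ (D.θ b) = τ₁ (D.θ b) := by
      intro b hb
      show τ₁ (s (D.θ b)) = _
      rw [hs' b hb]
    refine ⟨Pi.single τ₁ (1 / 2) - Pi.single τ₂ (1 / 2), fun a b => ?_⟩
    have e : ∀ (τ : K →ₐ[ℚ] Ω) (c : ℚ), Phi D τ₀ (Pi.single τ c) a b = c * (P D τ₀ τ a b : ℚ) := by
      intro τ c
      rw [Phi_apply, Finset.sum_eq_single τ]
      · simp
      · intro τ' _ h
        rw [Pi.single_eq_of_ne h, zero_mul]
      · simp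
    rw [map_sub, Matrix.sub_apply, e, e]
    by_cases hb : b = i
    · subst hb
      rw [P_of_eq D h1, P_of_neg D h2]
      by_cases ha : a = l
      · simp [ha]; norm_num
      · simp [ha]
    · have : P D τ₀ τ₂ a b = P D τ₀ τ₁ a b := by
        unfold P
        rw [h3 b hb]
      rw [this, if_neg (fun h => hb h.2)]
      ring
  choose v hv using hv
  intro M
  refine ⟨∑ l, ∑ i, M l i • v l i, ?_⟩
  ext a b
  simp only [map_sum, map_smul, Matrix.sum_apply, Matrix.smul_apply, hv, smul_eq_mul]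
  rw [Finset.sum_eq_single a, Finset.sum_eq_single b]
  · simp
  · intro c _ hc; simp [hc.symm]
  · simp
  · intro c _ hc
    refine Finset.sum_eq_zero fun d _ => ?_
    simp [hc.symm]
  · simp

/-- symmetric matrices with columns in a subspace -/
def W2 (X' : Submodule ℚ (Fin 3 → ℚ)) : Submodule ℚ ((Fin 3 → ℚ) × (Sym2 (Fin 3) → ℚ)) where
  carrier := {w | w.1 ∈ X' ∧ ∀ j, (fun i => w.2 s(i, j)) ∈ X'}
  add_mem' := by
    intro a b ha hb
    exact ⟨X'.add_mem ha.1 hb.1, fun j => X'.add_mem (ha.2 j) (hb.2 j)⟩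
  zero_mem' := ⟨X'.zero_mem, fun _ => X'.zero_mem⟩
  smul_mem' := by
    intro c a ha
    exact ⟨X'.smul_mem c ha.1, fun j => X'.smul_mem c (ha.2 j)⟩

lemma W2_rank (X' : Submodule ℚ (Fin 3 → ℚ)) :
    Module.finrank ℚ (W2 X') ≤ 3 * Module.finrank ℚ X' := by
  classical
  by_cases htop : X' = ⊤
  · subst htop
    have h1 : Module.finrank ℚ (W2 ⊤) ≤ Module.finrank ℚ ((Fin 3 → ℚ) × (Sym2 (Fin 3) → ℚ)) :=
      Submodule.finrank_le _
    have h2 : Module.finrank ℚ ((Fin 3 → ℚ) × (Sym2 (Fin 3) → ℚ)) = 9 := by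
      rw [Module.finrank_prod, Module.finrank_fintype_fun_eq_card,
        Module.finrank_fintype_fun_eq_card]
      rfl
    have h3 : Module.finrank ℚ (⊤ : Submodule ℚ (Fin 3 → ℚ)) = 3 := by
      rw [finrank_top, Module.finrank_fintype_fun_eq_card]
      rfl
    omega
  · obtain ⟨i₀, hi₀⟩ : ∃ i₀ : Fin 3, (Pi.single i₀ (1 : ℚ) : Fin 3 → ℚ) ∉ X' := by
      by_contra hcon
      push Not at hcon
      refine htop (eq_top_iff.2 fun v _ => ?_)
      have : v = ∑ i, v i • (Pi.single i (1 : ℚ) : Fin 3 → ℚ) := by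
        ext j
        simp [Finset.sum_apply, Pi.single_apply]
      rw [this]
      exact X'.sum_mem fun i _ => X'.smul_mem _ (hcon i)
    let F : W2 X' →ₗ[ℚ] (X' × ({i : Fin 3 // i ≠ i₀} → X')) :=
      { toFun := fun w => (⟨w.1.1, w.2.1⟩, fun j => ⟨fun i => w.1.2 s(i, j.1), w.2.2 j.1⟩)
        map_add' := fun a b => rfl
        map_smul' := fun c a => rfl }
    have hF : Function.Injective F := by
      rw [← LinearMap.ker_eq_bot, LinearMap.ker_eq_bot']
      intro w hw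
      have h1 : w.1.1 = 0 := congrArg (fun z => (z.1 : Fin 3 → ℚ)) hw
      have h2 : ∀ i j, j ≠ i₀ → w.1.2 s(i, j) = 0 := by
        intro i j hj
        have := congrArg (fun z => ((z.2 ⟨j, hj⟩ : X') : Fin 3 → ℚ) i) hw
        exact this
      have h3 : ∀ i, i ≠ i₀ → w.1.2 s(i, i₀) = 0 := by
        intro i hi
        rw [Sym2.eq_swap]
        exact h2 i₀ i hi
      have h4 : w.1.2 s(i₀, i₀) = 0 := by
        by_contra hne
        have h5 := w.2.2 i₀
        have h6 : (fun i => w.1.2 s(i, i₀)) = w.1.2 s(i₀, i₀) • (Pi.single i₀ (1 : ℚ) : Fin 3 → ℚ) := by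
          ext i
          by_cases hi : i = i₀
          · subst hi; simp
          · simp [h3 i hi, hi]
        rw [h6] at h5
        exact hi₀ ((Submodule.smul_mem_iff _ hne).1 h5)
      apply Subtype.ext
      apply Prod.ext
      · exact h1
      · ext z
        induction z using Sym2.ind with
        | _ i j =>
          by_cases hj : j = i₀
          · subst hj
            by_cases hi : i = j
            · subst hi; exact h4
            · exact h3 i hi
          · exact h2 i j hj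
    have h7 := LinearMap.finrank_le_finrank_of_injective hF
    rw [Module.finrank_prod, Module.finrank_pi_fintype] at h7
    simp only [Finset.sum_const, smul_eq_mul, Finset.card_univ] at h7
    have h8 : Fintype.card {i : Fin 3 // i ≠ i₀} = 2 := by
      rw [Fintype.card_subtype_compl, Fintype.card_subtype_eq]
      rfl
    rw [h8] at h7
    omega

/-- integer functions are rational functions -/
def castFun (ι : Type) : (ι → ℤ) →ₗ[ℤ] (ι → ℚ) where
  toFun χ τ := (χ τ : ℚ)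
  map_add' a b := by ext; simp
  map_smul' a b := by ext; simp

lemma castFun_inj (ι : Type) : Function.Injective (castFun ι) := by
  intro a b h
  ext i
  have h1 : ((a i : ℤ) : ℚ) = ((b i : ℤ) : ℚ) := congrFun h i
  exact_mod_cast h1

end Task4

open Task4 in
theorem t4 : T4 := by
  intro K _ _ D Ω _ _ hind ⟨τ₀⟩ hcard Ξ N h
  classical
  let E : ((K →ₐ[ℚ] Ω) → ℤ) → ((Fin 3 → ℚ) →ₗ[ℚ] (Fin 3 → ℚ)) := fun χ =>
    Matrix.toLin' (Phi D τ₀ (castFun _ χ))
  let X' : Submodule ℚ (Fin 3 → ℚ) := ⨅ χ ∈ Ξ, LinearMap.ker (E χ)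
  have hX' : ∀ v, v ∈ X' ↔ ∀ χ ∈ Ξ, E χ v = 0 := by
    intro v
    simp only [X', Submodule.mem_iInf, LinearMap.mem_ker]
  -- part 1
  let R : ((K →ₐ[ℚ] Ω) → ℚ) →ₗ[ℚ] (X' →ₗ[ℚ] (Fin 3 → ℚ)) :=
    (LinearMap.lcomp ℚ (Fin 3 → ℚ) X'.subtype) ∘ₗ
      ((Matrix.toLin' : Matrix (Fin 3) (Fin 3) ℚ ≃ₗ[ℚ] _).toLinearMap ∘ₗ Phi D τ₀)
  have hR : Function.Surjective R := by
    intro g
    obtain ⟨g', hg'⟩ := LinearMap.exists_extend g
    obtain ⟨χ, hχ⟩ := Phi_surj D τ₀ (LinearMap.toMatrix' g')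
    refine ⟨χ, ?_⟩
    show (Matrix.toLin' (Phi D τ₀ χ)) ∘ₗ X'.subtype = g
    rw [hχ, Matrix.toLin'_toMatrix', hg']
  have h1 : Module.finrank ℤ Ξ ≤ Module.finrank ℚ (LinearMap.ker R) := by
    refine rank_le Ξ (castFun _) (castFun_inj _) _ fun χ hχ => ?_
    rw [LinearMap.mem_ker]
    ext v : 1
    show E χ (v : Fin 3 → ℚ) = 0
    exact (hX' _).1 v.2 χ hχ
  have h2 : Module.finrank ℚ (LinearMap.ker R) + 3 * Module.finrank ℚ X' = Module.finrank ℚ K := by
    have e1 := LinearMap.finrank_range_add_finrank_ker R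
    rw [LinearMap.range_eq_top.2 hR, finrank_top, Module.finrank_linearMap,
      Module.finrank_fintype_fun_eq_card, Module.finrank_fintype_fun_eq_card,
      Fintype.card_fin, ← Nat.card_eq_fintype_card, hcard] at e1
    omega
  -- part 2
  let f : Par →ₗ[ℤ] ((Fin 3 → ℚ) × (Sym2 (Fin 3) → ℚ)) :=
    (castFun (Fin 3)).prodMap (castFun (Sym2 (Fin 3)))
  have hf : Function.Injective f := by
    intro a b hab
    have e1 := congrArg Prod.fst hab
    have e2 := congrArg Prod.snd hab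
    exact Prod.ext (castFun_inj _ e1) (castFun_inj _ e2)
  have h3 : Module.finrank ℤ N ≤ Module.finrank ℚ (W2 X') := by
    refine rank_le N f hf _ fun n hn => ?_
    have hcol : ∀ j : Fin 4, (fun i => (expo i j n : ℚ)) ∈ X' := by
      intro j
      rw [hX']
      intro χ hχ
      ext l
      have hk := key D τ₀ hind n χ (h n hn χ hχ) l j
      have hk' : ((∑ i, X D τ₀ χ l i * expo i j n : ℤ) : ℚ) = 0 := by rw [hk]; simp
      rw [Int.cast_sum] at hk'
      show (Matrix.toLin' (Phi D τ₀ (castFun _ χ)) (fun i => (expo i j n : ℚ))) l = 0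
      rw [Matrix.toLin'_apply]
      show ∑ i, Phi D τ₀ (castFun _ χ) l i * (expo i j n : ℚ) = 0
      rw [← hk']
      refine Finset.sum_congr rfl fun i _ => ?_
      rw [Phi_apply, Int.cast_mul, X, Int.cast_sum]
      congr 1
      refine Finset.sum_congr rfl fun τ _ => ?_
      rw [Int.cast_mul]
      rfl
    exact ⟨hcol 0, fun j => hcol j.succ⟩
  have h4 := W2_rank X'
  omega

end

end Pool.Agent.H441R2.Pad
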