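import Mathlib
import Pool.Agent.H441R2.Pad.Core

set_option autoImplicit false

/-!
# `A(ℚ_p)` when `p` splits completely
-/

namespace Pool.Agent.H441R2.Pad

open scoped TensorProduct

noncomputable section

variable {K : Type} [Field K] [NumberField K] {p : ℕ} [Fact p.Prime]

/-- Evaluation at an embedding into `ℚ_p`. -/
def ev (τ : K →ₐ[ℚ] ℚ_[p]) : ℚ_[p] ⊗[ℚ] K →ₐ[ℚ_[p]] ℚ_[p] :=
  Algebra.TensorProduct.lift (AlgHom.id ℚ_[p] ℚ_[p]) τ (fun _ _ => Commute.all _ _)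

@[simp] lemma ev_tmul (τ : K →ₐ[ℚ] ℚ_[p]) (a : ℚ_[p]) (x : K) : ev τ (a ⊗ₜ x) = a * τ x := by
  simp [ev]

lemma ev_continuous (τ : K →ₐ[ℚ] ℚ_[p]) : Continuous (ev τ) :=
  IsModuleTopology.continuous_of_linearMap (ev τ).toLinearMap

/-- all evaluations -/
def evAll : ℚ_[p] ⊗[ℚ] K →ₐ[ℚ_[p]] ((K →ₐ[ℚ] ℚ_[p]) → ℚ_[p]) :=
  AlgHom.pi fun τ => ev τ

@[simp] lemma evAll_apply (v : ℚ_[p] ⊗[ℚ] K) (τ : K →ₐ[ℚ] ℚ_[p]) : evAll v τ = ev τ v := rfl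

lemma linInd_emb : LinearIndependent ℚ_[p] (fun τ : K →ₐ[ℚ] ℚ_[p] => (τ : K → ℚ_[p])) := by
  have h := linearIndependent_monoidHom K ℚ_[p]
  have hinj : Function.Injective (fun τ : K →ₐ[ℚ] ℚ_[p] => (τ : K →* ℚ_[p])) := by
    intro a b hab
    ext x
    exact congrArg (fun f : K →* ℚ_[p] => f x) hab
  exact h.comp _ hinj

lemma evAll_surjective [Finite (K →ₐ[ℚ] ℚ_[p])] :
    Function.Surjective (evAll : ℚ_[p] ⊗[ℚ] K →ₐ[ℚ_[p]] ((K →ₐ[ℚ] ℚ_[p]) → ℚ_[p])) := by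
  classical
  have := Fintype.ofFinite (K →ₐ[ℚ] ℚ_[p])
  by_contra hcon
  have hne : LinearMap.range (evAll : ℚ_[p] ⊗[ℚ] K →ₐ[ℚ_[p]] _).toLinearMap ≠ ⊤ := by
    intro h
    exact hcon (LinearMap.range_eq_top.mp h)
  obtain ⟨f, hf0, hf⟩ := Submodule.exists_le_ker_of_lt_top _ (lt_top_iff_ne_top.mpr hne)
  have h1 : ∀ x : K, ∑ τ : K →ₐ[ℚ] ℚ_[p], f (Pi.single τ 1) * τ x = 0 := by
    intro x
    have h2 : f (evAll ((1 : ℚ_[p]) ⊗ₜ x)) = 0 := by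
      have : evAll ((1 : ℚ_[p]) ⊗ₜ x) ∈
          LinearMap.range (evAll : ℚ_[p] ⊗[ℚ] K →ₐ[ℚ_[p]] _).toLinearMap :=
        LinearMap.mem_range.mpr ⟨(1 : ℚ_[p]) ⊗ₜ x, rfl⟩
      exact hf this
    have h3 : (evAll ((1 : ℚ_[p]) ⊗ₜ x) : (K →ₐ[ℚ] ℚ_[p]) → ℚ_[p]) =
        ∑ τ : K →ₐ[ℚ] ℚ_[p], (τ x) • (Pi.single τ (1 : ℚ_[p]) : (K →ₐ[ℚ] ℚ_[p]) → ℚ_[p]) := by
      funext σ
      simp [Finset.sum_apply, Pi.single_apply]
    rw [h3, map_sum] at h2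
    rw [← h2]
    refine Finset.sum_congr rfl fun τ _ => ?_
    rw [map_smul, smul_eq_mul, mul_comm]
  have h4 := Fintype.linearIndependent_iff.mp (linInd_emb (K := K) (p := p))
    (fun τ => f (Pi.single τ 1)) (by
      funext x
      simpa [Finset.sum_apply] using h1 x)
  apply hf0
  refine LinearMap.pi_ext' fun τ => ?_
  refine LinearMap.ext_ring ?_
  simpa using h4 τ

variable (K p) in
/-- `p` splits completely in `K`. -/
def SplitsCompletely : Prop := Nat.card (K →ₐ[ℚ] ℚ_[p]) = Module.finrank ℚ K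

lemma SplitsCompletely.finite (h : SplitsCompletely K p) : Finite (K →ₐ[ℚ] ℚ_[p]) := by
  apply Nat.finite_of_card_ne_zero
  rw [SplitsCompletely] at h
  rw [h]
  exact Module.finrank_pos.ne'

lemma evAll_bijective (h : SplitsCompletely K p) :
    Function.Bijective (evAll : ℚ_[p] ⊗[ℚ] K →ₐ[ℚ_[p]] ((K →ₐ[ℚ] ℚ_[p]) → ℚ_[p])) := by
  have := h.finite
  have := Fintype.ofFinite (K →ₐ[ℚ] ℚ_[p])
  refine ⟨?_, evAll_surjective⟩
  have hs := evAll_surjective (K := K) (p := p)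
  have hd : Module.finrank ℚ_[p] (ℚ_[p] ⊗[ℚ] K) =
      Module.finrank ℚ_[p] ((K →ₐ[ℚ] ℚ_[p]) → ℚ_[p]) := by
    rw [Module.finrank_baseChange, Module.finrank_fintype_fun_eq_card, ← Nat.card_eq_fintype_card]
    exact h.symm
  exact (LinearMap.injective_iff_surjective_of_finrank_eq_finrank (f := evAll.toLinearMap) hd).mpr
    hs

/-- The isomorphism `ℚ_p ⊗ K ≃ ℚ_p ^ Σ`. -/
def evEquiv (h : SplitsCompletely K p) : ℚ_[p] ⊗[ℚ] K ≃ₐ[ℚ_[p]] ((K →ₐ[ℚ] ℚ_[p]) → ℚ_[p]) :=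
  AlgEquiv.ofBijective evAll (evAll_bijective h)

@[simp] lemma evEquiv_apply (h : SplitsCompletely K p) (v : ℚ_[p] ⊗[ℚ] K)
    (τ : K →ₐ[ℚ] ℚ_[p]) : evEquiv h v τ = ev τ v := rfl

lemma evAll_continuous : Continuous (evAll : ℚ_[p] ⊗[ℚ] K →ₐ[ℚ_[p]]
    ((K →ₐ[ℚ] ℚ_[p]) → ℚ_[p])) :=
  continuous_pi fun τ => ev_continuous τ

lemma t2Space_tensor (h : SplitsCompletely K p) : T2Space (ℚ_[p] ⊗[ℚ] K) :=
  T2Space.of_injective_continuous (evAll_bijective h).1 evAll_continuous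

lemma evEquiv_symm_continuous (h : SplitsCompletely K p) : Continuous (evEquiv h).symm := by
  have := h.finite
  have : IsModuleTopology ℚ_[p] ((K →ₐ[ℚ] ℚ_[p]) → ℚ_[p]) := inferInstance
  exact IsModuleTopology.continuous_of_linearMap (evEquiv h).symm.toLinearMap

/-- Evaluation of points. -/
def evU (τ : K →ₐ[ℚ] ℚ_[p]) : LocalPoints K p →* ℚ_[p]ˣ :=
  Units.map (ev τ : ℚ_[p] ⊗[ℚ] K →ₐ[ℚ_[p]] ℚ_[p]).toRingHom.toMonoidHom

@[simp] lemma evU_val (τ : K →ₐ[ℚ] ℚ_[p]) (w : LocalPoints K p) :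
    ((evU τ w : ℚ_[p]ˣ) : ℚ_[p]) = ev τ (w : ℚ_[p] ⊗[ℚ] K) := rfl

@[simp] lemma ev_toLocal (τ : K →ₐ[ℚ] ℚ_[p]) (x : Kˣ) :
    ev τ ((toLocal K p x : LocalPoints K p) : ℚ_[p] ⊗[ℚ] K) = τ (x : K) := by
  show ev τ ((1 : ℚ_[p]) ⊗ₜ (x : K)) = _
  simp

lemma ev_val_continuous (τ : K →ₐ[ℚ] ℚ_[p]) :
    Continuous (fun w : LocalPoints K p => ev τ (w : ℚ_[p] ⊗[ℚ] K)) :=
  (ev_continuous τ).comp Units.continuous_val

lemma points_ext (h : SplitsCompletely K p) {w w' : LocalPoints K p}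
    (hw : ∀ τ : K →ₐ[ℚ] ℚ_[p], ev τ (w : ℚ_[p] ⊗[ℚ] K) = ev τ (w' : ℚ_[p] ⊗[ℚ] K)) : w = w' := by
  apply Units.ext
  apply (evAll_bijective h).1
  funext τ
  exact hw τ

/-- the ring homomorphism from the compact ring `ℤ_p ^ Σ` -/
def compactRing (h : SplitsCompletely K p) :
    ((K →ₐ[ℚ] ℚ_[p]) → ℤ_[p]) →+* ℚ_[p] ⊗[ℚ] K :=
  ((evEquiv h).symm : ((K →ₐ[ℚ] ℚ_[p]) → ℚ_[p]) →+* ℚ_[p] ⊗[ℚ] K).comp
    (RingHom.pi fun τ => (PadicInt.Coe.ringHom).comp (Pi.evalRingHom _ τ))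

lemma ev_compactRing (h : SplitsCompletely K p) (z : (K →ₐ[ℚ] ℚ_[p]) → ℤ_[p])
    (τ : K →ₐ[ℚ] ℚ_[p]) : ev τ (compactRing h z) = (z τ : ℚ_[p]) := by
  rw [← evEquiv_apply h]
  show evEquiv h ((evEquiv h).symm _) τ = _
  rw [AlgEquiv.apply_symm_apply]
  rfl

lemma compactRing_continuous (h : SplitsCompletely K p) : Continuous (compactRing h) := by
  refine (evEquiv_symm_continuous h).comp ?_
  refine continuous_pi fun τ => ?_
  exact continuous_subtype_val.comp (continuous_apply τ)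

/-- The compact group of units. -/
def compactGroup (h : SplitsCompletely K p) : Subgroup (LocalPoints K p) :=
  (Units.map (compactRing h).toMonoidHom).range

lemma compactGroup_compact (h : SplitsCompletely K p) :
    IsCompact (compactGroup h : Set (LocalPoints K p)) := by
  have hc : Continuous (Units.map (compactRing h).toMonoidHom) :=
    (compactRing_continuous h).units_map _
  rw [compactGroup, MonoidHom.coe_range]
  exact isCompact_range hc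

lemma mem_compactGroup (h : SplitsCompletely K p) (w : LocalPoints K p)
    (hw : ∀ τ : K →ₐ[ℚ] ℚ_[p], ‖ev τ (w : ℚ_[p] ⊗[ℚ] K)‖ = 1) : w ∈ compactGroup h := by
  let z : (K →ₐ[ℚ] ℚ_[p]) → ℤ_[p] := fun τ => ⟨ev τ (w : ℚ_[p] ⊗[ℚ] K), (hw τ).le⟩
  have hz : IsUnit z := by
    rw [Pi.isUnit_iff]
    intro τ
    rw [PadicInt.isUnit_iff]
    exact hw τ
  rw [compactGroup, MonoidHom.mem_range]
  refine ⟨hz.unit, ?_⟩
  apply points_ext h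
  intro τ
  show ev τ (compactRing h (hz.unit : _)) = _
  rw [ev_compactRing]
  rfl

end

end Pool.Agent.H441R2.Pad
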