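import Mathlib
import Pool.Agent.H441R2.Pad.Topo1

set_option autoImplicit false

/-!
# Logarithms of points
-/

namespace Pool.Agent.H441R2.Pad

open scoped TensorProduct

noncomputable section

variable {K : Type} [Field K] [NumberField K] {p : ℕ} [Fact p.Prime]

/-- a `p`-adic integer from its norm bound -/
def toZ (q : ℚ_[p]) (h : ‖q‖ ≤ 1) : ℤ_[p] := ⟨q, h⟩

@[simp] lemma toZ_coe (q : ℚ_[p]) (h : ‖q‖ ≤ 1) : ((toZ q h : ℤ_[p]) : ℚ_[p]) = q := rfl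

lemma toZ_norm (q : ℚ_[p]) (h : ‖q‖ ≤ 1) : ‖toZ q h‖ = ‖q‖ := rfl

lemma toZ_mul (a b : ℚ_[p]) (ha : ‖a‖ ≤ 1) (hb : ‖b‖ ≤ 1) (hab : ‖a * b‖ ≤ 1) :
    toZ (a * b) hab = toZ a ha * toZ b hb := by
  apply Subtype.ext
  rfl

lemma toZ_continuous : Continuous (fun q : {q : ℚ_[p] // ‖q‖ ≤ 1} => toZ q.1 q.2) :=
  Continuous.subtype_mk continuous_subtype_val _

variable (p) in
/-- A `p`-adic logarithm. -/
structure Lg where
  /-- the function -/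
  lg : ℤ_[p] → ℤ_[p]
  mul : ∀ u v : ℤ_[p], (p : ℤ_[p]) ∣ u - 1 → (p : ℤ_[p]) ∣ v - 1 → lg (u * v) = lg u + lg v
  inj : ∀ u : ℤ_[p], (p : ℤ_[p]) ∣ u - 1 → lg u = 0 → u = 1
  cont : ContinuousOn lg {u | (p : ℤ_[p]) ∣ u - 1}

namespace Lg

variable (l : Lg p)

/-- extension to `ℚ_p` by `0` -/
def lgQ (q : ℚ_[p]) : ℤ_[p] := if h : ‖q‖ ≤ 1 then l.lg (toZ q h) else 0

end Lg

lemma norm_le_one_of {q : ℚ_[p]} (h : ‖q - 1‖ < 1) : ‖q‖ ≤ 1 := by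
  have h1 : q = (q - 1) + 1 := by ring
  rw [h1]
  refine (IsUltrametricDist.norm_add_le_max _ _).trans ?_
  rw [norm_one]
  exact max_le h.le le_rfl

lemma dvd_of {q : ℚ_[p]} (h : ‖q - 1‖ < 1) :
    (p : ℤ_[p]) ∣ toZ q (norm_le_one_of h) - 1 := by
  rw [← PadicInt.norm_lt_one_iff_dvd, PadicInt.norm_def, PadicInt.coe_sub, PadicInt.coe_one,
    toZ_coe]
  exact h

lemma norm_mul_sub_one {a b : ℚ_[p]} (ha : ‖a - 1‖ < 1) (hb : ‖b - 1‖ < 1) :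
    ‖a * b - 1‖ < 1 := by
  have h1 : a * b - 1 = (a - 1) * b + (b - 1) := by ring
  rw [h1]
  refine lt_of_le_of_lt (IsUltrametricDist.norm_add_le_max _ _) (max_lt ?_ hb)
  rw [norm_mul]
  calc ‖a - 1‖ * ‖b‖ ≤ ‖a - 1‖ * 1 :=
        mul_le_mul_of_nonneg_left (norm_le_one_of hb) (norm_nonneg _)
    _ < 1 := by rw [mul_one]; exact ha

lemma norm_eq_one_of {q : ℚ_[p]} (h : ‖q - 1‖ < 1) : ‖q‖ = 1 := by
  refine le_antisymm (norm_le_one_of h) ?_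
  by_contra hc
  push Not at hc
  have h1 : (1 : ℚ_[p]) = q + (-(q - 1)) := by ring
  have h2 : ‖(1 : ℚ_[p])‖ < 1 := by
    conv_lhs => rw [h1]
    refine lt_of_le_of_lt (IsUltrametricDist.norm_add_le_max _ _) (max_lt hc ?_)
    rw [norm_neg]; exact h
  rw [norm_one] at h2
  exact lt_irrefl _ h2

lemma norm_inv_sub_one {a : ℚ_[p]} (ha : ‖a - 1‖ < 1) : ‖a⁻¹ - 1‖ < 1 := by
  have h1 := norm_eq_one_of ha
  have h0 : a ≠ 0 := by
    intro h; rw [h, norm_zero] at h1; exact zero_ne_one h1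
  have h2 : a⁻¹ - 1 = -(a⁻¹ * (a - 1)) := by field_simp; ring
  rw [h2, norm_neg, norm_mul, norm_inv, h1, inv_one, one_mul]
  exact ha

namespace Lg

variable (l : Lg p)

lemma lgQ_eq {q : ℚ_[p]} (h : ‖q - 1‖ < 1) : l.lgQ q = l.lg (toZ q (norm_le_one_of h)) := by
  rw [lgQ, dif_pos (norm_le_one_of h)]

lemma lgQ_mul {a b : ℚ_[p]} (ha : ‖a - 1‖ < 1) (hb : ‖b - 1‖ < 1) :
    l.lgQ (a * b) = l.lgQ a + l.lgQ b := by
  rw [l.lgQ_eq ha, l.lgQ_eq hb, l.lgQ_eq (norm_mul_sub_one ha hb), ← l.mul _ _ (dvd_of ha)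
    (dvd_of hb), toZ_mul]

lemma lgQ_one : l.lgQ 1 = 0 := by
  have h : ‖(1 : ℚ_[p]) - 1‖ < 1 := by simp
  have h1 := l.lgQ_mul h h
  rw [mul_one] at h1
  simpa using h1

lemma lgQ_inv {a : ℚ_[p]} (ha : ‖a - 1‖ < 1) : l.lgQ a⁻¹ = - l.lgQ a := by
  have h1 := l.lgQ_mul ha (norm_inv_sub_one ha)
  have h0 : a ≠ 0 := by
    intro h
    have := norm_eq_one_of ha
    rw [h, norm_zero] at this; exact zero_ne_one this
  rw [mul_inv_cancel₀ h0, l.lgQ_one] at h1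
  exact eq_neg_of_add_eq_zero_right h1.symm

lemma lgQ_inj {a : ℚ_[p]} (ha : ‖a - 1‖ < 1) (h : l.lgQ a = 0) : a = 1 := by
  rw [l.lgQ_eq ha] at h
  have := l.inj _ (dvd_of ha) h
  have h2 := congrArg (fun z : ℤ_[p] => (z : ℚ_[p])) this
  simpa using h2

lemma lgQ_contOn : ContinuousOn l.lgQ {q : ℚ_[p] | ‖q - 1‖ < 1} := by
  rw [continuousOn_iff_continuous_domRestrict]
  have h1 : Set.domRestrict {q : ℚ_[p] | ‖q - 1‖ < 1} l.lgQ =
      (Set.domRestrict {u : ℤ_[p] | (p : ℤ_[p]) ∣ u - 1} l.lg) ∘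
        (fun q : {q : ℚ_[p] | ‖q - 1‖ < 1} =>
          (⟨toZ q.1 (norm_le_one_of q.2), dvd_of q.2⟩ :
            {u : ℤ_[p] | (p : ℤ_[p]) ∣ u - 1})) := by
    funext q
    simp only [Set.domRestrict_apply, Function.comp_apply]
    exact l.lgQ_eq q.2
  rw [h1]
  refine (continuousOn_iff_continuous_domRestrict.mp l.cont).comp ?_
  refine Continuous.subtype_mk ?_ _
  exact Continuous.subtype_mk continuous_subtype_val _

end Lg

variable (K p) in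
/-- The points all of whose coordinates are principal units. -/
def G1 : Subgroup (LocalPoints K p) where
  carrier := {w | ∀ τ : K →ₐ[ℚ] ℚ_[p], ‖ev τ (w : ℚ_[p] ⊗[ℚ] K) - 1‖ < 1}
  mul_mem' := by
    intro a b ha hb τ
    rw [Units.val_mul, map_mul]
    exact norm_mul_sub_one (ha τ) (hb τ)
  one_mem' := by
    intro τ
    simp
  inv_mem' := by
    intro a ha τ
    have h1 : ev τ ((a⁻¹ : LocalPoints K p) : ℚ_[p] ⊗[ℚ] K) =
        (ev τ (a : ℚ_[p] ⊗[ℚ] K))⁻¹ := by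
      have : ((evU τ a⁻¹ : ℚ_[p]ˣ) : ℚ_[p]) = ((evU τ a : ℚ_[p]ˣ) : ℚ_[p])⁻¹ := by
        rw [map_inv, Units.val_inv_eq_inv_val]
      exact this
    rw [h1]
    exact norm_inv_sub_one (ha τ)

lemma mem_G1 {w : LocalPoints K p} :
    w ∈ G1 K p ↔ ∀ τ : K →ₐ[ℚ] ℚ_[p], ‖ev τ (w : ℚ_[p] ⊗[ℚ] K) - 1‖ < 1 := Iff.rfl

lemma ev_inv (τ : K →ₐ[ℚ] ℚ_[p]) (a : LocalPoints K p) :
    ev τ ((a⁻¹ : LocalPoints K p) : ℚ_[p] ⊗[ℚ] K) = (ev τ (a : ℚ_[p] ⊗[ℚ] K))⁻¹ := by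
  have : ((evU τ a⁻¹ : ℚ_[p]ˣ) : ℚ_[p]) = ((evU τ a : ℚ_[p]ˣ) : ℚ_[p])⁻¹ := by
    rw [map_inv, Units.val_inv_eq_inv_val]
  exact this

lemma isClosed_lt_one : IsClosed {q : ℚ_[p] | ‖q - 1‖ < 1} := by
  have h1 : {q : ℚ_[p] | ‖q - 1‖ < 1} = Metric.ball (1 : ℚ_[p]) 1 := by
    ext q; simp [dist_eq_norm]
  rw [h1]
  exact IsUltrametricDist.isClosed_ball _ _

lemma G1_closed : IsClosed (G1 K p : Set (LocalPoints K p)) := by
  have h1 : (G1 K p : Set (LocalPoints K p)) = ⋂ τ : K →ₐ[ℚ] ℚ_[p],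
      (fun w : LocalPoints K p => ev τ (w : ℚ_[p] ⊗[ℚ] K)) ⁻¹' {q : ℚ_[p] | ‖q - 1‖ < 1} := by
    ext w
    simp [mem_G1]
  rw [h1]
  exact isClosed_iInter fun τ => isClosed_lt_one.preimage (ev_val_continuous τ)

lemma G1_le_compactGroup (h : SplitsCompletely K p) : G1 K p ≤ compactGroup h := by
  intro w hw
  exact mem_compactGroup h w fun τ => norm_eq_one_of (hw τ)

/-- The logarithm of a point. -/
def Lam (l : Lg p) (w : LocalPoints K p) : (K →ₐ[ℚ] ℚ_[p]) → ℤ_[p] :=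
  fun τ => l.lgQ (ev τ (w : ℚ_[p] ⊗[ℚ] K))

lemma Lam_mul (l : Lg p) {a b : LocalPoints K p} (ha : a ∈ G1 K p) (hb : b ∈ G1 K p) :
    Lam l (a * b) = Lam l a + Lam l b := by
  funext τ
  show l.lgQ (ev τ ((a * b : LocalPoints K p) : ℚ_[p] ⊗[ℚ] K)) = _
  rw [Units.val_mul, map_mul, l.lgQ_mul (ha τ) (hb τ)]
  rfl

lemma Lam_one (l : Lg p) : Lam l (1 : LocalPoints K p) = 0 := by
  funext τ
  show l.lgQ (ev τ ((1 : LocalPoints K p) : ℚ_[p] ⊗[ℚ] K)) = _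
  rw [Units.val_one, map_one, l.lgQ_one]
  rfl

lemma Lam_inv (l : Lg p) {a : LocalPoints K p} (ha : a ∈ G1 K p) :
    Lam l (a⁻¹) = - Lam l a := by
  funext τ
  show l.lgQ (ev τ ((a⁻¹ : LocalPoints K p) : ℚ_[p] ⊗[ℚ] K)) = _
  rw [ev_inv, l.lgQ_inv (ha τ)]
  rfl

lemma Lam_inj (l : Lg p) (h : SplitsCompletely K p) {a : LocalPoints K p} (ha : a ∈ G1 K p)
    (h0 : Lam l a = 0) : a = 1 := by
  apply points_ext h
  intro τ
  rw [l.lgQ_inj (ha τ) (congrFun h0 τ), Units.val_one, map_one]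

lemma Lam_contOn (l : Lg p) : ContinuousOn (Lam l) (G1 K p : Set (LocalPoints K p)) := by
  rw [continuousOn_pi]
  intro τ
  exact l.lgQ_contOn.comp (ev_val_continuous τ).continuousOn (fun w hw => hw τ)

/-- A continuous additive map between finite free `ℤ_p`-modules is linear. -/
def linOfCont {ι κ : Type} (f : (ι → ℤ_[p]) →+ (κ → ℤ_[p])) (hf : Continuous f) :
    (ι → ℤ_[p]) →ₗ[ℤ_[p]] (κ → ℤ_[p]) where
  toFun := f
  map_add' := f.map_add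
  map_smul' := by
    intro c x
    have h1 : Continuous (fun c : ℤ_[p] => f (c • x)) :=
      hf.comp (continuous_id.smul continuous_const)
    have h2 : Continuous (fun c : ℤ_[p] => c • f x) := continuous_id.smul continuous_const
    have h := (PadicInt.denseRange_natCast (p := p)).equalizer h1 h2 (by
        funext n
        simp only [Function.comp_apply]
        rw [Nat.cast_smul_eq_nsmul, Nat.cast_smul_eq_nsmul, map_nsmul])
    exact congrFun h c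

end

end Pool.Agent.H441R2.Pad
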