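import Mathlib
import Pool.Agent.H441R2.Pad.Topo2

set_option autoImplicit false

/-!
# Non-commensurability from a bound on the rank of the logarithms
-/

namespace Pool.Agent.H441R2.Pad

open scoped TensorProduct

noncomputable section

variable {K : Type} [Field K] [NumberField K] {p : ℕ} [Fact p.Prime]

/-- If the logarithms of the points of `M` lie in a `ℤ_p`-submodule of rank `< r`, then `M` is not
commensurable with `ℤ_p ^ r`. -/
theorem not_commensurable (h : SplitsCompletely K p) (l : Lg p)
    (M : Subgroup (LocalPoints K p)) (hM : M ≤ G1 K p)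
    (S : Submodule ℤ_[p] ((K →ₐ[ℚ] ℚ_[p]) → ℤ_[p])) (r : ℕ) (hS : Module.finrank ℤ_[p] S < r)
    (hMS : ∀ w ∈ M, Lam l w ∈ S) : ¬ CommensurableWithZp p r M := by
  have := h.finite
  rintro ⟨U, W, hU, hW, ⟨e⟩⟩
  set N : ℕ := W.index with hN
  have hN0 : N ≠ 0 := hW.index_ne_zero
  have hmem : ∀ z : Fin r → ℤ_[p], Multiplicative.ofAdd (N • z) ∈ W := by
    intro z
    rw [ofAdd_nsmul]
    exact Subgroup.pow_index_mem W _
  let g : (Fin r → ℤ_[p]) → W := fun z => ⟨Multiplicative.ofAdd (N • z), hmem z⟩
  have hg : Continuous g := by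
    refine Continuous.subtype_mk ?_ _
    exact continuous_ofAdd.comp (continuous_const_smul N)
  have hg_add : ∀ z z', g (z + z') = g z * g z' := by
    intro z z'
    apply Subtype.ext
    show Multiplicative.ofAdd (N • (z + z')) = Multiplicative.ofAdd (N • z) *
      Multiplicative.ofAdd (N • z')
    rw [smul_add, ofAdd_add]
  let w : (Fin r → ℤ_[p]) → LocalPoints K p := fun z => (((e.symm (g z) : U) : M) :
    LocalPoints K p)
  have hw : Continuous w :=
    continuous_subtype_val.comp (continuous_subtype_val.comp (e.symm.continuous.comp hg))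
  have hwM : ∀ z, w z ∈ M := fun z => ((e.symm (g z) : U) : M).2
  have hw_add : ∀ z z', w (z + z') = w z * w z' := by
    intro z z'
    show (((e.symm (g (z + z')) : U) : M) : LocalPoints K p) = _
    rw [hg_add, map_mul]
    rfl
  have hw_zero : w 0 = 1 := by
    have h1 := hw_add 0 0
    rw [add_zero] at h1
    exact left_eq_mul.mp h1
  let f : (Fin r → ℤ_[p]) →+ ((K →ₐ[ℚ] ℚ_[p]) → ℤ_[p]) :=
    { toFun := fun z => Lam l (w z)
      map_zero' := by rw [hw_zero, Lam_one]
      map_add' := by
        intro z z'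
        rw [hw_add, Lam_mul l (hM (hwM z)) (hM (hwM z'))] }
  have hf : Continuous f := by
    have h1 := (Lam_contOn (K := K) l).comp_continuous hw (fun z => hM (hwM z))
    exact h1
  have hinj : ∀ z, f z = 0 → z = 0 := by
    intro z hz
    have h1 : w z = 1 := Lam_inj l h (hM (hwM z)) hz
    have h2 : e.symm (g z) = 1 := by
      apply Subtype.ext
      apply Subtype.ext
      exact h1
    have h3 : g z = 1 := by
      have := congrArg e h2
      rwa [ContinuousMulEquiv.apply_symm_apply, map_one] at this
    have h4 : N • z = 0 := by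
      have := congrArg (fun y : W => Multiplicative.toAdd (y : Multiplicative (Fin r → ℤ_[p]))) h3
      exact this
    funext i
    have h5 := congrFun h4 i
    rw [Pi.smul_apply, nsmul_eq_mul, Pi.zero_apply] at h5
    rcases mul_eq_zero.mp h5 with h6 | h6
    · exact absurd (by exact_mod_cast h6) hN0
    · exact h6
  let F := linOfCont f hf
  have hF : Function.Injective F := by
    rw [← LinearMap.ker_eq_bot, LinearMap.ker_eq_bot']
    exact hinj
  have hFS : ∀ z, F z ∈ S := fun z => hMS _ (hwM z)
  let F' : (Fin r → ℤ_[p]) →ₗ[ℤ_[p]] S := F.codRestrict S hFS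
  have hF' : Function.Injective F' := by
    intro a b hab
    apply hF
    have := congrArg Subtype.val hab
    exact this
  have h1 := LinearMap.finrank_le_finrank_of_injective hF'
  rw [Module.finrank_fintype_fun_eq_card, Fintype.card_fin] at h1
  exact absurd h1 (not_le.mpr hS)

/-- logarithm as a homomorphism on `G1` -/
def LamHom (l : Lg p) : G1 K p →* Multiplicative ((K →ₐ[ℚ] ℚ_[p]) → ℤ_[p]) where
  toFun w := Multiplicative.ofAdd (Lam l (w : LocalPoints K p))
  map_one' := by
    show Multiplicative.ofAdd (Lam l (1 : LocalPoints K p)) = 1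
    rw [Lam_one]; rfl
  map_mul' a b := by
    show Multiplicative.ofAdd (Lam l ((a : LocalPoints K p) * (b : LocalPoints K p))) = _
    rw [Lam_mul l a.2 b.2]; rfl

/-- the closure of a group whose logarithms lie in a closed submodule -/
theorem closure_le (l : Lg p) (L : Subgroup Kˣ)
    (S : Submodule ℤ_[p] ((K →ₐ[ℚ] ℚ_[p]) → ℤ_[p])) (hS : IsClosed (S : Set ((K →ₐ[ℚ] ℚ_[p]) → ℤ_[p])))
    (hL : ∀ x ∈ L, toLocal K p x ∈ G1 K p ∧ Lam l (toLocal K p x) ∈ S) :
    ∀ w ∈ closureIn K p L, w ∈ G1 K p ∧ Lam l w ∈ S := by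
  let H : Subgroup (LocalPoints K p) :=
    { carrier := {w | w ∈ G1 K p ∧ Lam l w ∈ S}
      mul_mem' := by
        rintro a b ⟨ha, ha'⟩ ⟨hb, hb'⟩
        refine ⟨mul_mem ha hb, ?_⟩
        rw [Lam_mul l ha hb]
        exact add_mem ha' hb'
      one_mem' := ⟨one_mem _, by rw [Lam_one]; exact zero_mem _⟩
      inv_mem' := by
        rintro a ⟨ha, ha'⟩
        refine ⟨inv_mem ha, ?_⟩
        rw [Lam_inv l ha]
        exact neg_mem ha' }
  have hH : IsClosed (H : Set (LocalPoints K p)) := by
    have h1 := (Lam_contOn (K := K) l).preimage_isClosed_of_isClosed G1_closed hS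
    exact h1
  have h2 : closureIn K p L ≤ H := by
    apply Subgroup.topologicalClosure_minimal _ _ hH
    rintro _ ⟨x, hx, rfl⟩
    exact hL x hx
  exact fun w hw => h2 hw

/-- the closure of such a group is compact -/
theorem closure_compact (h : SplitsCompletely K p) (L : Subgroup Kˣ)
    (hL : ∀ x ∈ L, toLocal K p x ∈ G1 K p) :
    IsCompact (closureIn K p L : Set (LocalPoints K p)) := by
  have h1 : closureIn K p L ≤ G1 K p := by
    apply Subgroup.topologicalClosure_minimal _ _ G1_closed
    rintro _ ⟨x, hx, rfl⟩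
    exact hL x hx
  have h2 : IsClosed (closureIn K p L : Set (LocalPoints K p)) :=
    Subgroup.isClosed_topologicalClosure _
  exact (compactGroup_compact h).of_isClosed_subset h2 (fun w hw => G1_le_compactGroup h (h1 hw))

end

end Pool.Agent.H441R2.Pad
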