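import Mathlib
import Pool.Agent.H441R2.Pad.Topo3

set_option autoImplicit false

/-!
# The relation between the logarithms
-/

namespace Pool.Agent.H441R2.Pad

open scoped TensorProduct

noncomputable section

/-- A root of a cubic `Y ^ 3 + b Y + c` with three known distinct roots is one of them. -/
lemma cubic_root {F : Type} [Field F] {b c a1 a2 a3 y : F} (h12 : a1 ≠ a2) (h13 : a1 ≠ a3)
    (h23 : a2 ≠ a3) (h1 : a1 ^ 3 + b * a1 + c = 0) (h2 : a2 ^ 3 + b * a2 + c = 0)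
    (h3 : a3 ^ 3 + b * a3 + c = 0) (hy : y ^ 3 + b * y + c = 0) : y = a1 ∨ y = a2 ∨ y = a3 := by
  have e12 : a1 ^ 2 + a1 * a2 + a2 ^ 2 + b = 0 := by
    have : (a1 - a2) * (a1 ^ 2 + a1 * a2 + a2 ^ 2 + b) = 0 := by linear_combination h1 - h2
    exact (mul_eq_zero.mp this).resolve_left (sub_ne_zero.mpr h12)
  have e13 : a1 ^ 2 + a1 * a3 + a3 ^ 2 + b = 0 := by
    have : (a1 - a3) * (a1 ^ 2 + a1 * a3 + a3 ^ 2 + b) = 0 := by linear_combination h1 - h3
    exact (mul_eq_zero.mp this).resolve_left (sub_ne_zero.mpr h13)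
  have e0 : a1 + a2 + a3 = 0 := by
    have : (a2 - a3) * (a1 + a2 + a3) = 0 := by linear_combination e12 - e13
    exact (mul_eq_zero.mp this).resolve_left (sub_ne_zero.mpr h23)
  have key : (y - a1) * ((y - a2) * (y - a3)) = 0 := by
    have ha3 : a3 = -a1 - a2 := by linear_combination e0
    subst ha3
    have hb : b = -(a1 ^ 2 + a1 * a2 + a2 ^ 2) := by linear_combination e12
    subst hb
    have hc : c = a1 ^ 2 * a2 + a1 * a2 ^ 2 := by linear_combination h1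
    subst hc
    linear_combination hy
  rcases mul_eq_zero.mp key with h | h
  · exact Or.inl (sub_eq_zero.mp h)
  · rcases mul_eq_zero.mp h with h | h
    · exact Or.inr (Or.inl (sub_eq_zero.mp h))
    · exact Or.inr (Or.inr (sub_eq_zero.mp h))

namespace FieldData

variable {K : Type} [Field K] [NumberField K] (D : FieldData K)

/-- Each embedding sends a root `θ i` to `± τ₀ (θ l)`. -/
lemma emb_theta {F : Type} [Field F] [Algebra ℚ F] (τ₀ τ : K →ₐ[ℚ] F) (i : Fin 3) :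
    ∃ l, τ (D.θ i) = τ₀ (D.θ l) ∨ τ (D.θ i) = - τ₀ (D.θ l) := by
  have hroot : ∀ (σ : K →ₐ[ℚ] F) (k : Fin 3), (σ (D.θ k) ^ 2) ^ 3 + (-14) * (σ (D.θ k) ^ 2) + 6
      = 0 := by
    intro σ k
    have h1 := congrArg σ (D.root k)
    simp only [map_add, map_sub, map_mul, map_pow, map_ofNat, map_zero] at h1
    linear_combination h1
  have hne : ∀ k l : Fin 3, k ≠ l → τ₀ (D.θ k) ^ 2 ≠ τ₀ (D.θ l) ^ 2 := by
    intro k l hkl h
    rw [← map_pow, ← map_pow] at h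
    exact hkl (D.sq_inj k l (τ₀.toRingHom.injective h))
  have h := cubic_root (hne 0 1 (by decide)) (hne 0 2 (by decide)) (hne 1 2 (by decide))
    (hroot τ₀ 0) (hroot τ₀ 1) (hroot τ₀ 2) (hroot τ i)
  rcases h with h | h | h
  · exact ⟨0, sq_eq_sq_iff_eq_or_eq_neg.mp h⟩
  · exact ⟨1, sq_eq_sq_iff_eq_or_eq_neg.mp h⟩
  · exact ⟨2, sq_eq_sq_iff_eq_or_eq_neg.mp h⟩

lemma emb_u {F : Type} [Field F] [Algebra ℚ F] (τ : K →ₐ[ℚ] F) (i : Fin 3) (j : Fin 4) :
    τ ((D.u i j : Kˣ) : K) = (τ (D.θ i) - (xs j : F)) / (τ (D.θ i) + (xs j : F)) := by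
  rw [D.u_val, map_div₀, map_sub, map_add, map_intCast]

/-- In terms of the base embedding. -/
lemma emb_u_cases {F : Type} [Field F] [Algebra ℚ F] (τ₀ τ : K →ₐ[ℚ] F) (i : Fin 3) :
    ∃ l, (∀ j, τ ((D.u i j : Kˣ) : K) = τ₀ ((D.u l j : Kˣ) : K)) ∨
      (∀ j, τ ((D.u i j : Kˣ) : K) = (τ₀ ((D.u l j : Kˣ) : K))⁻¹) := by
  obtain ⟨l, h | h⟩ := D.emb_theta τ₀ τ i
  · refine ⟨l, Or.inl fun j => ?_⟩
    rw [D.emb_u, D.emb_u, h]
  · refine ⟨l, Or.inr fun j => ?_⟩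
    rw [D.emb_u, D.emb_u, h, inv_div]
    have e1 : -τ₀ (D.θ l) - (xs j : F) = -(τ₀ (D.θ l) + (xs j : F)) := by ring
    have e2 : -τ₀ (D.θ l) + (xs j : F) = -(τ₀ (D.θ l) - (xs j : F)) := by ring
    rw [e1, e2, neg_div_neg_eq]

lemma norm_xs (j : Fin 4) : ‖((xs j : ℤ) : ℚ_[7])‖ < 1 := by
  rw [Padic.norm_intCast_lt_one_iff]
  exact_mod_cast xs_dvd j

lemma norm_theta (τ : K →ₐ[ℚ] ℚ_[7]) (i : Fin 3) : ‖τ (D.θ i)‖ = 1 := by
  set t := τ (D.θ i) with ht
  have h1 : t ^ 6 - 14 * t ^ 2 + 6 = 0 := by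
    have h1 := congrArg τ (D.root i)
    simp only [map_add, map_sub, map_mul, map_pow, map_ofNat, map_zero] at h1
    exact h1
  have h6 : ‖(6 : ℚ_[7])‖ = 1 := by
    have h : ¬ ‖((6 : ℤ) : ℚ_[7])‖ < 1 := by
      rw [Padic.norm_intCast_lt_one_iff]
      norm_num
    have h' : ‖((6 : ℤ) : ℚ_[7])‖ ≤ 1 := Padic.norm_int_le_one 6
    have := le_antisymm h' (not_lt.mp h)
    exact_mod_cast this
  have h14 : ‖(14 : ℚ_[7])‖ ≤ 1 := by
    have h' : ‖((14 : ℤ) : ℚ_[7])‖ ≤ 1 := Padic.norm_int_le_one 14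
    exact_mod_cast h'
  rcases lt_trichotomy ‖t‖ 1 with hlt | heq | hgt
  · exfalso
    have h2 : (6 : ℚ_[7]) = 14 * t ^ 2 + (-(t ^ 6)) := by linear_combination h1
    have h3 : ‖(6 : ℚ_[7])‖ < 1 := by
      rw [h2]
      refine lt_of_le_of_lt (IsUltrametricDist.norm_add_le_max _ _) (max_lt ?_ ?_)
      · rw [norm_mul, norm_pow]
        have : ‖t‖ ^ 2 < 1 := pow_lt_one₀ (norm_nonneg _) hlt (by norm_num)
        calc ‖(14 : ℚ_[7])‖ * ‖t‖ ^ 2 ≤ 1 * ‖t‖ ^ 2 :=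
              mul_le_mul_of_nonneg_right h14 (by positivity)
          _ < 1 := by rw [one_mul]; exact this
      · rw [norm_neg, norm_pow]
        exact pow_lt_one₀ (norm_nonneg _) hlt (by norm_num)
    rw [h6] at h3
    exact lt_irrefl _ h3
  · exact heq
  · exfalso
    have h2 : t ^ 6 = 14 * t ^ 2 + (-6) := by linear_combination h1
    have h3 : ‖t ^ 6‖ ≤ ‖t‖ ^ 2 := by
      rw [h2]
      refine (IsUltrametricDist.norm_add_le_max _ _).trans (max_le ?_ ?_)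
      · rw [norm_mul, norm_pow]
        calc ‖(14 : ℚ_[7])‖ * ‖t‖ ^ 2 ≤ 1 * ‖t‖ ^ 2 :=
              mul_le_mul_of_nonneg_right h14 (by positivity)
          _ = ‖t‖ ^ 2 := one_mul _
      · rw [norm_neg, h6]
        exact one_le_pow₀ hgt.le
    rw [norm_pow] at h3
    have h4 : ‖t‖ ^ 2 < ‖t‖ ^ 6 := pow_lt_pow_right₀ hgt (by norm_num)
    exact absurd h3 (not_le.mpr h4)

lemma norm_u (τ : K →ₐ[ℚ] ℚ_[7]) (i : Fin 3) (j : Fin 4) :
    ‖τ ((D.u i j : Kˣ) : K) - 1‖ < 1 := by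
  rw [D.emb_u]
  set t := τ (D.θ i) with ht
  have h1 : ‖t‖ = 1 := D.norm_theta τ i
  have h2 := norm_xs j
  have h3 : ‖t + ((xs j : ℤ) : ℚ_[7])‖ = 1 := by
    rw [IsUltrametricDist.norm_add_eq_max_of_norm_ne_norm, h1, max_eq_left h2.le]
    rw [h1]
    exact h2.ne'
  have h0 : t + ((xs j : ℤ) : ℚ_[7]) ≠ 0 := by
    intro h; rw [h, norm_zero] at h3; exact zero_ne_one h3
  have h4 : (t - ((xs j : ℤ) : ℚ_[7])) / (t + ((xs j : ℤ) : ℚ_[7])) - 1 =
      (-2) * ((xs j : ℤ) : ℚ_[7]) / (t + ((xs j : ℤ) : ℚ_[7])) := by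
    field_simp
    ring
  rw [h4, norm_div, h3, div_one, norm_mul]
  have h5 : ‖(-2 : ℚ_[7])‖ ≤ 1 := by
    have h' : ‖((-2 : ℤ) : ℚ_[7])‖ ≤ 1 := Padic.norm_int_le_one (-2)
    exact_mod_cast h'
  calc ‖(-2 : ℚ_[7])‖ * ‖((xs j : ℤ) : ℚ_[7])‖ ≤ 1 * ‖((xs j : ℤ) : ℚ_[7])‖ :=
        mul_le_mul_of_nonneg_right h5 (norm_nonneg _)
    _ < 1 := by rw [one_mul]; exact h2

lemma toLocal_u_mem (i : Fin 3) (j : Fin 4) : toLocal K 7 (D.u i j) ∈ G1 K 7 := by
  intro τ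
  rw [ev_toLocal]
  exact D.norm_u τ i j

lemma toLocal_Psi_mem (n : Multiplicative Par) : toLocal K 7 (D.Psi n) ∈ G1 K 7 := by
  show toLocal K 7 (∏ i, ∏ j, (D.u i j) ^ (expo i j n.toAdd)) ∈ G1 K 7
  rw [map_prod]
  refine Subgroup.prod_mem _ fun i _ => ?_
  rw [map_prod]
  refine Subgroup.prod_mem _ fun j _ => ?_
  rw [map_zpow]
  exact Subgroup.zpow_mem _ (D.toLocal_u_mem i j) _

/-- logarithms of the basic elements -/
def lam (l : Lg 7) (i : Fin 3) (j : Fin 4) : (K →ₐ[ℚ] ℚ_[7]) → ℤ_[7] :=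
  Lam l (toLocal K 7 (D.u i j))

lemma lam_apply (l : Lg 7) (i : Fin 3) (j : Fin 4) (τ : K →ₐ[ℚ] ℚ_[7]) :
    D.lam l i j τ = l.lgQ (τ ((D.u i j : Kˣ) : K)) := by
  show l.lgQ (ev τ _) = _
  rw [ev_toLocal]

lemma Lam_Psi (l : Lg 7) (n : Multiplicative Par) :
    Lam l (toLocal K 7 (D.Psi n)) = ∑ i, ∑ j, (expo i j n.toAdd) • D.lam l i j := by
  have h1 : (⟨toLocal K 7 (D.Psi n), D.toLocal_Psi_mem n⟩ : G1 K 7) =
      ∏ i, ∏ j, (⟨toLocal K 7 (D.u i j), D.toLocal_u_mem i j⟩ : G1 K 7) ^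
        (expo i j n.toAdd) := by
    apply Subtype.ext
    push_cast
    show toLocal K 7 (∏ i, ∏ j, (D.u i j) ^ (expo i j n.toAdd)) = _
    simp only [map_prod, map_zpow]
  have h2 := congrArg (LamHom l) h1
  simp only [map_prod, map_zpow] at h2
  have h3 := congrArg Multiplicative.toAdd h2
  simp only [toAdd_prod, toAdd_zpow] at h3
  exact h3

/-- The `ℤ_7`-linear extension. -/
def FF (l : Lg 7) : ((Fin 3 → ℤ_[7]) × (Sym2 (Fin 3) → ℤ_[7])) →ₗ[ℤ_[7]]
    ((K →ₐ[ℚ] ℚ_[7]) → ℤ_[7]) where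
  toFun c := ∑ i, (c.1 i • D.lam l i 0 + ∑ j : Fin 3, c.2 s(i, j) • D.lam l i j.succ)
  map_add' a b := by
    simp only [Prod.fst_add, Prod.snd_add, Pi.add_apply, add_smul, Finset.sum_add_distrib]
    abel
  map_smul' c a := by
    simp only [Prod.smul_fst, Prod.smul_snd, Pi.smul_apply, smul_assoc, RingHom.id_apply,
      Finset.smul_sum, smul_add]

lemma FF_continuous (l : Lg 7) : Continuous (D.FF l) := by
  show Continuous (fun c : (Fin 3 → ℤ_[7]) × (Sym2 (Fin 3) → ℤ_[7]) =>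
    ∑ i, (c.1 i • D.lam l i 0 + ∑ j : Fin 3, c.2 s(i, j) • D.lam l i j.succ))
  refine continuous_finsetSum _ fun i _ => ?_
  refine Continuous.add ?_ ?_
  · exact ((continuous_apply i).comp continuous_fst).smul continuous_const
  · refine continuous_finsetSum _ fun j _ => ?_
    exact ((continuous_apply _).comp continuous_snd).smul continuous_const

lemma Lam_Psi_mem (l : Lg 7) (n : Multiplicative Par) :
    Lam l (toLocal K 7 (D.Psi n)) ∈ LinearMap.range (D.FF l) := by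
  refine ⟨(fun i => ((n.toAdd.1 i : ℤ) : ℤ_[7]), fun s => ((n.toAdd.2 s : ℤ) : ℤ_[7])), ?_⟩
  rw [D.Lam_Psi]
  show ∑ i, (((n.toAdd.1 i : ℤ) : ℤ_[7]) • D.lam l i 0 +
    ∑ j : Fin 3, ((n.toAdd.2 s(i, j) : ℤ) : ℤ_[7]) • D.lam l i j.succ) = _
  refine Finset.sum_congr rfl fun i _ => ?_
  rw [Fin.sum_univ_succ (n := 3)]
  simp only [expo_zero, expo_succ, Int.cast_smul_eq_zsmul]

/-- There is a nontrivial relation. -/
lemma FF_ker (l : Lg 7) : ∃ c, c ≠ 0 ∧ D.FF l c = 0 := by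
  have hfin : Nonempty (K →ₐ[ℚ] ℚ_[7]) := by
    have h : Nat.card (K →ₐ[ℚ] ℚ_[7]) ≠ 0 := by
      rw [D.split]; exact Module.finrank_pos.ne'
    exact (Nat.card_ne_zero.mp h).1
  obtain ⟨τ₀⟩ := hfin
  -- a relation between four vectors in a space of dimension three
  let B : (Fin 4 → ℤ_[7]) →ₗ[ℤ_[7]] (Fin 3 → ℤ_[7]) :=
    { toFun := fun d i => ∑ j, d j * D.lam l i j τ₀
      map_add' := by
        intro a b; funext i
        simp [add_mul, Finset.sum_add_distrib]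
      map_smul' := by
        intro a b; funext i
        simp [Finset.mul_sum, mul_assoc] }
  have hB : ∃ d, d ≠ 0 ∧ B d = 0 := by
    by_contra hcon
    push Not at hcon
    have hinj : Function.Injective B := by
      rw [← LinearMap.ker_eq_bot, LinearMap.ker_eq_bot']
      intro d hd
      by_contra hne
      exact hcon d hne hd
    have := LinearMap.finrank_le_finrank_of_injective hinj
    rw [Module.finrank_fintype_fun_eq_card, Module.finrank_fintype_fun_eq_card,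
      Fintype.card_fin, Fintype.card_fin] at this
    omega
  obtain ⟨d, hd0, hd⟩ := hB
  have hrel : ∀ i, ∑ j, d j * D.lam l i j τ₀ = 0 := fun i => congrFun hd i
  -- the relation at every embedding
  have hall : ∀ (τ : K →ₐ[ℚ] ℚ_[7]) (i : Fin 3), ∑ j, d j * D.lam l i j τ = 0 := by
    intro τ i
    obtain ⟨k, h | h⟩ := D.emb_u_cases τ₀ τ i
    · rw [← hrel k]
      refine Finset.sum_congr rfl fun j _ => ?_
      rw [lam_apply, lam_apply, h j]
    · have h1 : ∀ j, D.lam l i j τ = - D.lam l k j τ₀ := by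
        intro j
        rw [lam_apply, lam_apply, h j, l.lgQ_inv (D.norm_u τ₀ k j)]
      simp only [h1, mul_neg, Finset.sum_neg_distrib, hrel k, neg_zero]
  by_cases hz : ∀ j : Fin 3, d j.succ = 0
  · -- then `d 0 ≠ 0` and all the logarithms with `j = 0` vanish
    have hd00 : d 0 ≠ 0 := by
      intro h
      apply hd0
      funext j
      refine Fin.cases h (fun j => hz j) j
    refine ⟨(Pi.single 0 1, 0), ?_, ?_⟩
    · intro h
      have := congrArg (fun c : (Fin 3 → ℤ_[7]) × (Sym2 (Fin 3) → ℤ_[7]) => c.1 0) h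
      simp at this
    · have h2 : ∀ i, D.lam l i 0 = 0 := by
        intro i
        funext τ
        have h3 := hall τ i
        rw [Fin.sum_univ_succ (n := 3)] at h3
        simp only [hz, zero_mul, Finset.sum_const_zero, add_zero] at h3
        exact (mul_eq_zero.mp h3).resolve_left hd00
      show ∑ i, ((Pi.single 0 1 : Fin 3 → ℤ_[7]) i • D.lam l i 0 +
        ∑ j : Fin 3, (0 : Sym2 (Fin 3) → ℤ_[7]) s(i, j) • D.lam l i j.succ) = 0
      simp [h2]
  · push Not at hz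
    obtain ⟨j₀, hj₀⟩ := hz
    let b : Sym2 (Fin 3) → ℤ_[7] := Sym2.lift ⟨fun i j => d i.succ * d j.succ,
      fun i j => mul_comm _ _⟩
    refine ⟨(fun i => d i.succ * d 0, b), ?_, ?_⟩
    · intro h
      have h1 := congrArg (fun c : (Fin 3 → ℤ_[7]) × (Sym2 (Fin 3) → ℤ_[7]) => c.2 s(j₀, j₀)) h
      have h2 : d j₀.succ * d j₀.succ = 0 := h1
      exact hj₀ (mul_self_eq_zero.mp h2)
    · show ∑ i, ((d (Fin.succ i) * d 0) • D.lam l i 0 +
        ∑ j : Fin 3, (d i.succ * d j.succ) • D.lam l i j.succ) = 0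
      refine Finset.sum_eq_zero fun i _ => ?_
      funext τ
      have h3 := hall τ i
      rw [Fin.sum_univ_succ (n := 3)] at h3
      simp only [Pi.add_apply, Pi.smul_apply, Finset.sum_apply, smul_eq_mul, Pi.zero_apply]
      have h4 : ∑ j : Fin 3, d i.succ * d j.succ * D.lam l i j.succ τ =
          d i.succ * ∑ j : Fin 3, d j.succ * D.lam l i j.succ τ := by
        rw [Finset.mul_sum]
        exact Finset.sum_congr rfl fun j _ => by ring
      rw [h4]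
      linear_combination d i.succ * h3

lemma finrank_range (l : Lg 7) : Module.finrank ℤ_[7] (LinearMap.range (D.FF l)) < 9 := by
  obtain ⟨c, hc, hc0⟩ := D.FF_ker l
  have h1 := Submodule.finrank_quotient_add_finrank (LinearMap.ker (D.FF l))
  rw [LinearEquiv.finrank_eq (D.FF l).quotKerEquivRange] at h1
  have h2 : Module.finrank ℤ_[7] ((Fin 3 → ℤ_[7]) × (Sym2 (Fin 3) → ℤ_[7])) = 9 := by
    rw [Module.finrank_prod, Module.finrank_fintype_fun_eq_card,
      Module.finrank_fintype_fun_eq_card]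
    rfl
  have h3 : 0 < Module.finrank ℤ_[7] (LinearMap.ker (D.FF l)) := by
    rw [Module.finrank_pos_iff]
    refine ⟨⟨⟨c, hc0⟩, 0, ?_⟩⟩
    intro h
    exact hc (congrArg Subtype.val h)
  omega

end FieldData

end

end Pool.Agent.H441R2.Pad
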