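import Mathlib
import Pool.Agent.H441R2.Pad.Topo4
import Pool.Agent.H441R2.Pad.Task1
import Pool.Agent.H441R2.Pad.Task4

set_option autoImplicit false

/-!
# Assembly
-/

namespace Pool.Agent.H441R2.Pad

open scoped TensorProduct

noncomputable section

theorem exists_Lg : Nonempty (Lg 7) := by
  obtain ⟨lg, h1, h2, h3⟩ := t1 7 (by norm_num)
  exact ⟨⟨lg, h1, h2, h3⟩⟩

namespace FieldData

variable {K : Type} [Field K] [NumberField K] (D : FieldData K)

/-- Multiplicative independence of the twelve elements. -/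
def Indep : Prop := ∀ m : Fin 3 → Fin 4 → ℤ, (∏ i, ∏ j, (D.u i j) ^ (m i j)) = 1 → m = 0

lemma Psi_injective (hD : D.Indep) : Function.Injective D.Psi := by
  rw [injective_iff_map_eq_one]
  intro n hn
  have h1 : (fun i j => expo i j n.toAdd) = (0 : Fin 3 → Fin 4 → ℤ) := hD _ hn
  have h2 : n.toAdd = 0 := by
    refine Prod.ext ?_ ?_
    · funext i
      exact congrFun (congrFun h1 i) 0
    · funext s
      induction s using Sym2.ind with
      | _ i j => exact congrFun (congrFun h1 i) j.succ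
  exact Multiplicative.toAdd.injective h2

lemma groupRank_congr {G H : Type} [CommGroup G] [CommGroup H] (e : G ≃* H) :
    groupRank G = groupRank H :=
  LinearEquiv.finrank_eq (MulEquiv.toAdditive e).toIntLinearEquiv

lemma groupRank_L (hD : D.Indep) : groupRank D.L = 9 := by
  have h1 : groupRank (Multiplicative Par) = groupRank D.L :=
    groupRank_congr (MonoidHom.ofInjective (D.Psi_injective hD))
  rw [← h1]
  have h2 : groupRank (Multiplicative Par) = Module.finrank ℤ Par :=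
    LinearEquiv.finrank_eq (AddEquiv.additiveMultiplicative Par).toIntLinearEquiv
  rw [h2, Module.finrank_prod, Module.finrank_fintype_fun_eq_card,
    Module.finrank_fintype_fun_eq_card]
  rfl

lemma L_fg : D.L.FG := by
  have h1 : Group.FG (Multiplicative Par) := by
    have : AddGroup.FG Par := inferInstance
    infer_instance
  have h2 : Group.FG D.Psi.range := Group.fg_range D.Psi
  exact (Group.fg_iff_subgroup_fg D.L).mp h2

lemma L_mem_G1 : ∀ x ∈ D.L, toLocal K 7 x ∈ G1 K 7 := by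
  rintro _ ⟨n, rfl⟩
  exact D.toLocal_Psi_mem n

lemma L_inCompact : InCompact K 7 D.L := by
  refine ⟨compactGroup D.split, compactGroup_compact D.split, ?_⟩
  rintro _ ⟨x, hx, rfl⟩
  exact G1_le_compactGroup D.split (D.L_mem_G1 x hx)

/-- The parameters whose image lies in an algebraic subgroup. -/
def NN (Ξ : Submodule ℤ (Emb K 7 → ℤ)) : Subgroup (Multiplicative Par) :=
  ((algSubgroup K 7 Ξ).comap (toLocal K 7)).comap D.Psi

/-- The same as a submodule. -/
def NS (Ξ : Submodule ℤ (Emb K 7 → ℤ)) : Submodule ℤ Par :=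
  AddSubgroup.toIntSubmodule (Subgroup.toAddSubgroup' (D.NN Ξ))

lemma mem_NS (Ξ : Submodule ℤ (Emb K 7 → ℤ)) (n : Par) :
    n ∈ D.NS Ξ ↔ Multiplicative.ofAdd n ∈ D.NN Ξ := Iff.rfl

lemma groupRank_inf (hD : D.Indep) (Ξ : Submodule ℤ (Emb K 7 → ℤ)) :
    groupRank ↥(D.L ⊓ (algSubgroup K 7 Ξ).comap (toLocal K 7)) =
      Module.finrank ℤ (D.NS Ξ) := by
  have h1 : D.L ⊓ (algSubgroup K 7 Ξ).comap (toLocal K 7) = (D.NN Ξ).map D.Psi := by
    rw [NN, Subgroup.map_comap_eq]
    rfl
  rw [h1, ← groupRank_congr ((D.NN Ξ).equivMapOfInjective D.Psi (D.Psi_injective hD))]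
  let e : Additive (D.NN Ξ) ≃+ D.NS Ξ :=
    { toFun := fun x => ⟨Multiplicative.toAdd (x.toMul : Multiplicative Par), x.toMul.2⟩
      invFun := fun x => Additive.ofMul ⟨Multiplicative.ofAdd (x : Par), x.2⟩
      left_inv := fun x => rfl
      right_inv := fun x => rfl
      map_add' := fun x y => rfl }
  exact LinearEquiv.finrank_eq e.toIntLinearEquiv

lemma character_toLocal (χ : Emb K 7 → ℤ) (x : Kˣ) :
    ((character K 7 χ (toLocal K 7 x) : (AlgebraicClosure ℚ_[7])ˣ) : AlgebraicClosure ℚ_[7]) =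
      ∏ τ : Emb K 7, (τ (x : K)) ^ (χ τ) := by
  rw [character, MonoidHom.finsetProd_apply, Units.coe_prod]
  refine Finset.prod_congr rfl fun τ _ => ?_
  show (((Units.map (evalAt K 7 τ).toMonoidHom (toLocal K 7 x)) ^ (χ τ) :
    (AlgebraicClosure ℚ_[7])ˣ) : AlgebraicClosure ℚ_[7]) = _
  rw [Units.val_zpow_eq_zpow_val]
  congr 1
  show evalAt K 7 τ ((1 : ℚ_[7]) ⊗ₜ (x : K)) = _
  simp [evalAt]

lemma L_noExcess (hD : D.Indep) : NoExcess K 7 D.L := by
  intro Ξ
  rw [D.groupRank_inf hD Ξ, dimSubgroup]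
  have h := t4 K D (AlgebraicClosure ℚ_[7]) hD
  have hne : Nonempty (K →ₐ[ℚ] AlgebraicClosure ℚ_[7]) := ⟨IsAlgClosed.lift⟩
  have hcard : Nat.card (K →ₐ[ℚ] AlgebraicClosure ℚ_[7]) = Module.finrank ℚ K := by
    rw [Nat.card_eq_fintype_card]
    exact AlgHom.card ℚ K (AlgebraicClosure ℚ_[7])
  have h2 := h hne hcard Ξ (D.NS Ξ) (by
    intro n hn χ hχ
    have h3 : toLocal K 7 (D.Psi (Multiplicative.ofAdd n)) ∈ algSubgroup K 7 Ξ := hn
    rw [algSubgroup, Subgroup.mem_iInf] at h3
    have h4 := h3 χ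
    rw [Subgroup.mem_iInf] at h4
    have h5 := MonoidHom.mem_ker.mp (h4 hχ)
    have h6 := character_toLocal χ (D.Psi (Multiplicative.ofAdd n))
    rw [h5, Units.val_one] at h6
    exact h6.symm)
  exact Nat.le_sub_of_add_le h2

theorem L_counterexample (hD : D.Indep) : ¬ ExpectedAnswerPadic K 7 := by
  intro hexp
  obtain ⟨l⟩ := exists_Lg
  have hsplit : SplitsCompletely K 7 := D.split
  have hcomp := closure_compact hsplit D.L D.L_mem_G1
  have h1 := hexp D.L D.L_fg D.L_inCompact (D.L_noExcess hD) (closureIn K 7 D.L)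
    ⟨le_rfl, hcomp, fun C hC _ => hC⟩
  rw [D.groupRank_L hD] at h1
  have hclosed : IsClosed (LinearMap.range (D.FF l) : Set ((K →ₐ[ℚ] ℚ_[7]) → ℤ_[7])) := by
    rw [LinearMap.coe_range]
    exact (isCompact_range (D.FF_continuous l)).isClosed
  have hcl := closure_le l D.L (LinearMap.range (D.FF l)) hclosed (by
    rintro _ ⟨n, rfl⟩
    exact ⟨D.toLocal_Psi_mem n, D.Lam_Psi_mem l n⟩)
  exact not_commensurable hsplit l (closureIn K 7 D.L) (fun w hw => (hcl w hw).1)
    (LinearMap.range (D.FF l)) 9 (D.finrank_range l) (fun w hw => (hcl w hw).2) h1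

end FieldData

end

end Pool.Agent.H441R2.Pad
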