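import Pool.Agent.H441R2.Pad.Core

/-!
Task T2: the splitting field of `X ^ 6 - 14 X ^ 2 + 6` carries the field data.
-/

set_option autoImplicit false

namespace Pool.Agent.H441R2.Pad

open Polynomial

namespace T2Aux

/-- the polynomial over `ℤ` -/
noncomputable def GZ : ℤ[X] := X ^ 6 - C 14 * X ^ 2 + C 6

/-- the polynomial over `ℚ` -/
noncomputable def GQ : ℚ[X] := GZ.map (Int.castRingHom ℚ)

lemma GZ_natDegree : GZ.natDegree = 6 := by
  unfold GZ; compute_degree!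

lemma GZ_degree : GZ.degree = 6 := by
  unfold GZ; compute_degree!

lemma GZ_monic : GZ.Monic := by
  unfold GZ
  monicity!

lemma GZ_coeff (n : ℕ) (hn : n < 6) : GZ.coeff n = if n = 0 then 6 else if n = 2 then -14 else 0 := by
  unfold GZ
  rw [coeff_add, coeff_sub, coeff_C_mul, coeff_X_pow, coeff_X_pow, coeff_C]
  interval_cases n <;> simp

lemma GZ_irreducible : Irreducible GZ := by
  have hp : Prime (2 : ℤ) := Int.prime_two
  apply irreducible_of_eisenstein_criterion (P := Ideal.span {(2 : ℤ)})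
    ((Ideal.span_singleton_prime (by norm_num)).mpr hp)
  · rw [GZ_monic.leadingCoeff, Ideal.mem_span_singleton]; norm_num
  · intro n hn
    rw [GZ_degree] at hn
    have hn' : n < 6 := by exact_mod_cast hn
    rw [GZ_coeff n hn', Ideal.mem_span_singleton]
    split_ifs <;> norm_num
  · rw [GZ_degree]; norm_num
  · rw [GZ_coeff 0 (by norm_num), Ideal.span_singleton_pow, Ideal.mem_span_singleton]
    norm_num
  · exact GZ_monic.isPrimitive

lemma GQ_irreducible : Irreducible GQ :=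
  (IsPrimitive.Int.irreducible_iff_irreducible_map_cast GZ_monic.isPrimitive).mp GZ_irreducible

lemma GQ_monic : GQ.Monic := GZ_monic.map _

lemma GQ_eq : GQ = X ^ 6 - C 14 * X ^ 2 + C 6 := by
  unfold GQ GZ
  simp only [Polynomial.map_add, Polynomial.map_sub, Polynomial.map_mul, Polynomial.map_pow,
    map_X, map_C]
  rw [map_ofNat (Int.castRingHom ℚ) 14, map_ofNat (Int.castRingHom ℚ) 6]

lemma aeval_GQ {A : Type*} [CommRing A] [Algebra ℚ A] (x : A) :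
    aeval x GQ = x ^ 6 - 14 * x ^ 2 + 6 := by
  rw [GQ_eq]
  simp only [map_add, map_sub, map_mul, map_pow, aeval_X, aeval_C]
  rw [map_ofNat (algebraMap ℚ A) 14, map_ofNat (algebraMap ℚ A) 6]

lemma aeval_GZ {A : Type*} [CommRing A] (x : A) :
    aeval x GZ = x ^ 6 - 14 * x ^ 2 + 6 := by
  unfold GZ
  simp only [map_add, map_sub, map_mul, map_pow, aeval_X, aeval_C]
  rw [map_ofNat (algebraMap ℤ A) 14, map_ofNat (algebraMap ℤ A) 6]

lemma aeval_dGZ {A : Type*} [CommRing A] (x : A) :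
    aeval x (derivative GZ) = 6 * x ^ 5 - 28 * x := by
  have : derivative GZ = C 6 * X ^ 5 - C 28 * X := by
    unfold GZ
    simp only [derivative_add, derivative_sub, derivative_X_pow, derivative_C_mul_X_pow,
      derivative_C]
    norm_num
  rw [this]
  simp only [map_sub, map_mul, map_pow, aeval_X, aeval_C]
  rw [map_ofNat (algebraMap ℤ A) 6, map_ofNat (algebraMap ℤ A) 28]

lemma mem_rootSet_GQ {A : Type*} [Field A] [Algebra ℚ A] (x : A) :
    x ∈ GQ.rootSet A ↔ x ^ 6 - 14 * x ^ 2 + 6 = 0 := by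
  rw [mem_rootSet, aeval_GQ]
  exact ⟨fun h => h.2, fun h => ⟨GQ_monic.ne_zero, h⟩⟩

/-- Vieta for the cubic `Y ^ 3 - 14 Y + 6`. -/
lemma vieta {F : Type*} [Field F] {b1 b2 b3 : F} (h1 : b1 ^ 3 - 14 * b1 + 6 = 0)
    (h2 : b2 ^ 3 - 14 * b2 + 6 = 0) (h3 : b3 ^ 3 - 14 * b3 + 6 = 0) (h12 : b1 ≠ b2)
    (h13 : b1 ≠ b3) (h23 : b2 ≠ b3) :
    b1 + b2 + b3 = 0 ∧ b1 * b2 + b1 * b3 + b2 * b3 = -14 ∧ b1 * b2 * b3 = -6 := by
  have e12 : b1 ^ 2 + b1 * b2 + b2 ^ 2 = 14 := by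
    have : (b1 - b2) * (b1 ^ 2 + b1 * b2 + b2 ^ 2 - 14) = 0 := by linear_combination h1 - h2
    rcases mul_eq_zero.mp this with h | h
    · exact absurd (sub_eq_zero.mp h) h12
    · linear_combination h
  have e13 : b1 ^ 2 + b1 * b3 + b3 ^ 2 = 14 := by
    have : (b1 - b3) * (b1 ^ 2 + b1 * b3 + b3 ^ 2 - 14) = 0 := by linear_combination h1 - h3
    rcases mul_eq_zero.mp this with h | h
    · exact absurd (sub_eq_zero.mp h) h13
    · linear_combination h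
  have s : b1 + b2 + b3 = 0 := by
    have : (b2 - b3) * (b1 + b2 + b3) = 0 := by linear_combination e12 - e13
    rcases mul_eq_zero.mp this with h | h
    · exact absurd (sub_eq_zero.mp h) h23
    · exact h
  have hb3 : b3 = -b1 - b2 := by linear_combination s
  refine ⟨s, ?_, ?_⟩
  · rw [hb3]; linear_combination -e12
  · rw [hb3]; linear_combination -b1 * e12 + h1

lemma factor {F : Type*} [Field F] {b1 b2 b3 : F} (h1 : b1 ^ 3 - 14 * b1 + 6 = 0)
    (h2 : b2 ^ 3 - 14 * b2 + 6 = 0) (h3 : b3 ^ 3 - 14 * b3 + 6 = 0) (h12 : b1 ≠ b2)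
    (h13 : b1 ≠ b3) (h23 : b2 ≠ b3) (z : F) :
    z ^ 6 - 14 * z ^ 2 + 6 = (z ^ 2 - b1) * (z ^ 2 - b2) * (z ^ 2 - b3) := by
  obtain ⟨e1, e2, e3⟩ := vieta h1 h2 h3 h12 h13 h23
  linear_combination z ^ 4 * e1 - z ^ 2 * e2 + e3

lemma cubic {F : Type*} [Field F] {z : F} (h : z ^ 6 - 14 * z ^ 2 + 6 = 0) :
    (z ^ 2) ^ 3 - 14 * (z ^ 2) + 6 = 0 := by linear_combination h

/-- A root in `ℤ_7` near `a`. -/
lemma hensel (a : ℤ) (h1 : (7 : ℤ) ∣ a ^ 6 - 14 * a ^ 2 + 6) (h2 : ¬ (7 : ℤ) ∣ 6 * a ^ 5 - 28 * a) :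
    ∃ t : ℤ_[7], t ^ 6 - 14 * t ^ 2 + 6 = 0 ∧ ‖t - a‖ < 1 := by
  have e1 : (aeval (a : ℤ_[7]) GZ : ℤ_[7]) = ((a ^ 6 - 14 * a ^ 2 + 6 : ℤ) : ℤ_[7]) := by
    rw [aeval_GZ]; push_cast; ring
  have e2 : (aeval (a : ℤ_[7]) (derivative GZ) : ℤ_[7]) = ((6 * a ^ 5 - 28 * a : ℤ) : ℤ_[7]) := by
    rw [aeval_dGZ]; push_cast; ring
  have n2 : ‖(aeval (a : ℤ_[7]) (derivative GZ) : ℤ_[7])‖ = 1 := by
    rw [e2]
    apply le_antisymm (PadicInt.norm_le_one _)
    by_contra hlt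
    push Not at hlt
    exact h2 ((PadicInt.norm_int_lt_one_iff_dvd _).mp hlt)
  have n1 : ‖(aeval (a : ℤ_[7]) GZ : ℤ_[7])‖ < 1 := by
    rw [e1, PadicInt.norm_int_lt_one_iff_dvd]
    exact_mod_cast h1
  obtain ⟨z, hz, hz2, _⟩ := hensels_lemma (p := 7) (F := GZ) (a := (a : ℤ_[7]))
    (by rw [n2]; simpa using n1)
  refine ⟨z, ?_, by rwa [n2] at hz2⟩
  rw [← aeval_GZ z, hz]

lemma hensel_sq {a b : ℤ} {s t : ℤ_[7]} (hs : ‖s - a‖ < 1) (ht : ‖t - b‖ < 1)
    (hab : ¬ (7 : ℤ) ∣ a ^ 2 - b ^ 2) : (s : ℚ_[7]) ^ 2 ≠ (t : ℚ_[7]) ^ 2 := by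
  intro h
  have h' : s ^ 2 = t ^ 2 := by
    apply Subtype.coe_injective
    push_cast
    exact h
  apply hab
  have h7 : ((7 : ℕ) : ℤ) ∣ a ^ 2 - b ^ 2 := by
    rw [← PadicInt.norm_int_lt_one_iff_dvd (p := 7)]
    have e : ((a ^ 2 - b ^ 2 : ℤ) : ℤ_[7]) = (t - b) * (t + b) - (s - a) * (s + a) := by
      push_cast; linear_combination h'
    rw [e]
    rw [sub_eq_add_neg]
    refine lt_of_le_of_lt (PadicInt.nonarchimedean _ _) ?_
    rw [norm_neg, norm_mul, norm_mul]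
    apply max_lt
    · exact lt_of_le_of_lt (mul_le_of_le_one_right (norm_nonneg _) (PadicInt.norm_le_one _)) ht
    · exact lt_of_le_of_lt (mul_le_of_le_one_right (norm_nonneg _) (PadicInt.norm_le_one _)) hs
  exact_mod_cast h7

/-- three roots of `G` in `ℚ_7` with distinct squares -/
lemma roots_Q7 : ∃ t : Fin 3 → ℚ_[7], (∀ i, t i ^ 6 - 14 * t i ^ 2 + 6 = 0) ∧
    ∀ i j, t i ^ 2 = t j ^ 2 → i = j := by
  obtain ⟨t1, h1, n1⟩ := hensel 1 (by norm_num) (by norm_num)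
  obtain ⟨t2, h2, n2⟩ := hensel 2 (by norm_num) (by norm_num)
  obtain ⟨t3, h3, n3⟩ := hensel 3 (by norm_num) (by norm_num)
  have d12 := hensel_sq n1 n2 (by norm_num)
  have d13 := hensel_sq n1 n3 (by norm_num)
  have d23 := hensel_sq n2 n3 (by norm_num)
  refine ⟨![(t1 : ℚ_[7]), t2, t3], ?_, ?_⟩
  · intro i
    fin_cases i
    · have := congrArg (PadicInt.Coe.ringHom (p := 7)) h1
      simp only [map_add, map_sub, map_mul, map_pow, map_ofNat, map_zero] at this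
      exact this
    · have := congrArg (PadicInt.Coe.ringHom (p := 7)) h2
      simp only [map_add, map_sub, map_mul, map_pow, map_ofNat, map_zero] at this
      exact this
    · have := congrArg (PadicInt.Coe.ringHom (p := 7)) h3
      simp only [map_add, map_sub, map_mul, map_pow, map_ofNat, map_zero] at this
      exact this
  · intro i j
    fin_cases i <;> fin_cases j <;> simp <;> intro h
    · exact d12 h
    · exact d13 h
    · exact d12 h.symm
    · exact d23 h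
    · exact d13 h.symm
    · exact d23 h.symm

lemma splits_of_roots {F : Type*} [Field F] [Algebra ℚ F] (t : Fin 3 → F)
    (h : ∀ i, t i ^ 6 - 14 * t i ^ 2 + 6 = 0) (hinj : ∀ i j, t i ^ 2 = t j ^ 2 → i = j) :
    (GQ.map (algebraMap ℚ F)).Splits := by
  obtain ⟨e1, e2, e3⟩ := vieta (cubic (h 0)) (cubic (h 1)) (cubic (h 2))
    (fun h => absurd (hinj _ _ h) (by decide)) (fun h => absurd (hinj _ _ h) (by decide))
    (fun h => absurd (hinj _ _ h) (by decide))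
  have hmap : GQ.map (algebraMap ℚ F) = X ^ 6 - C 14 * X ^ 2 + C 6 := by
    rw [GQ_eq]
    simp only [Polynomial.map_add, Polynomial.map_sub, Polynomial.map_mul, Polynomial.map_pow,
      map_X, map_C]
    rw [map_ofNat (algebraMap ℚ F) 14, map_ofNat (algebraMap ℚ F) 6]
  have hprod : GQ.map (algebraMap ℚ F) = ((X - C (t 0)) * (X + C (t 0))) *
      ((X - C (t 1)) * (X + C (t 1))) * ((X - C (t 2)) * (X + C (t 2))) := by
    rw [hmap]
    have c1 : C (t 0) ^ 2 + C (t 1) ^ 2 + C (t 2) ^ 2 = (0 : F[X]) := by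
      rw [← C_pow, ← C_pow, ← C_pow, ← C_add, ← C_add, e1, C_0]
    have c2 : C (t 0) ^ 2 * C (t 1) ^ 2 + C (t 0) ^ 2 * C (t 2) ^ 2 + C (t 1) ^ 2 * C (t 2) ^ 2 =
        -(C 14 : F[X]) := by
      simp only [← C_pow, ← C_mul, ← C_add, ← C_neg]
      rw [e2]
    have c3 : C (t 0) ^ 2 * C (t 1) ^ 2 * C (t 2) ^ 2 = -(C 6 : F[X]) := by
      simp only [← C_pow, ← C_mul, ← C_neg]
      rw [e3]
    linear_combination X ^ 4 * c1 - X ^ 2 * c2 + c3
  rw [hprod]
  exact (((Splits.X_sub_C _).mul (Splits.X_add_C _)).mul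
    ((Splits.X_sub_C _).mul (Splits.X_add_C _))).mul ((Splits.X_sub_C _).mul (Splits.X_add_C _))

/-- The field. -/
lemma exists_field : ∃ (K : Type) (_ : Field K) (_ : NumberField K), IsSplittingField ℚ K GQ := by
  have : CharZero (SplittingField GQ) := charZero_of_injective_algebraMap
    (algebraMap ℚ (SplittingField GQ)).injective
  have hfd : FiniteDimensional ℚ (SplittingField GQ) := inferInstance
  refine ⟨SplittingField GQ, inferInstance, ⟨⟩, ?_⟩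
  exact Polynomial.IsSplittingField.splittingField GQ

section
variable {K : Type} [Field K] [NumberField K] [hK : IsSplittingField ℚ K GQ]

include hK

lemma normal : Normal ℚ K := Normal.of_isSplittingField GQ

lemma conj_roots {x y : K} (hx : x ^ 6 - 14 * x ^ 2 + 6 = 0) (hy : y ^ 6 - 14 * y ^ 2 + 6 = 0) :
    ∃ σ : K ≃ₐ[ℚ] K, σ x = y := by
  have := normal (K := K)
  have mx : minpoly ℚ x = GQ :=
    (minpoly.eq_of_irreducible_of_monic GQ_irreducible (by rw [aeval_GQ, hx]) GQ_monic).symm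
  have my : minpoly ℚ y = GQ :=
    (minpoly.eq_of_irreducible_of_monic GQ_irreducible (by rw [aeval_GQ, hy]) GQ_monic).symm
  have : IsConjRoot ℚ y x := by rw [isConjRoot_def, mx, my]
  exact isConjRoot_iff_exists_algEquiv.mp this

lemma lift_root {L : Type*} [Field L] [Algebra ℚ L] (f : K →ₐ[ℚ] L) {z : L}
    (hz : z ^ 6 - 14 * z ^ 2 + 6 = 0) : ∃ x : K, x ^ 6 - 14 * x ^ 2 + 6 = 0 ∧ f x = z := by
  have h1 := (IsSplittingField.splits K GQ).image_rootSet f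
  have h2 : z ∈ GQ.rootSet L := (mem_rootSet_GQ z).mpr hz
  rw [← h1] at h2
  obtain ⟨x, hx, hxz⟩ := h2
  exact ⟨x, (mem_rootSet_GQ x).mp hx, hxz⟩

lemma card_hom (f : K →ₐ[ℚ] ℚ_[7]) : Nat.card (K →ₐ[ℚ] ℚ_[7]) = Module.finrank ℚ K := by
  have := normal (K := K)
  apply AlgHom.natCard_of_splits
  intro x
  have h1 : ((minpoly ℚ x).map (algebraMap ℚ K)).Splits := Normal.splits inferInstance x
  have h2 := h1.map (f : K →+* ℚ_[7])
  rw [Polynomial.map_map] at h2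
  have : (f : K →+* ℚ_[7]).comp (algebraMap ℚ K) = algebraMap ℚ ℚ_[7] := AlgHom.comp_algebraMap f
  rwa [this] at h2

end

lemma real_roots : ∃ a1 a2 a3 : ℝ, a1 < 0 ∧ 0 < a2 ∧ 0 < a3 ∧ a2 < a3 ∧
    a1 ^ 3 - 14 * a1 + 6 = 0 ∧ a2 ^ 3 - 14 * a2 + 6 = 0 ∧ a3 ^ 3 - 14 * a3 + 6 = 0 := by
  have hc : ∀ a b : ℝ, ContinuousOn (fun y : ℝ => y ^ 3 - 14 * y + 6) (Set.Icc a b) :=
    fun a b => by fun_prop
  obtain ⟨a1, h1, e1⟩ := intermediate_value_Icc (by norm_num : (-4 : ℝ) ≤ -3) (hc (-4) (-3))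
    (show (0 : ℝ) ∈ Set.Icc ((-4 : ℝ) ^ 3 - 14 * (-4) + 6) ((-3 : ℝ) ^ 3 - 14 * (-3) + 6) by
      constructor <;> norm_num)
  obtain ⟨a2, h2, e2⟩ := intermediate_value_Icc' (by norm_num : (0 : ℝ) ≤ 1) (hc 0 1)
    (show (0 : ℝ) ∈ Set.Icc ((1 : ℝ) ^ 3 - 14 * 1 + 6) ((0 : ℝ) ^ 3 - 14 * 0 + 6) by
      constructor <;> norm_num)
  obtain ⟨a3, h3, e3⟩ := intermediate_value_Icc (by norm_num : (3 : ℝ) ≤ 4) (hc 3 4)
    (show (0 : ℝ) ∈ Set.Icc ((3 : ℝ) ^ 3 - 14 * 3 + 6) ((4 : ℝ) ^ 3 - 14 * 4 + 6) by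
      constructor <;> norm_num)
  simp only at e1 e2 e3
  refine ⟨a1, a2, a3, by linarith [h1.2], ?_, by linarith [h3.1], by linarith [h2.2, h3.1],
    e1, e2, e3⟩
  rcases h2.1.eq_or_lt with h | h
  · rw [← h] at e2; norm_num at e2
  · exact h

lemma real_of_sq {w : ℂ} {a : ℝ} (ha : 0 < a) (h : w ^ 2 = (a : ℂ)) :
    (starRingEnd ℂ) w = w := by
  have h1 : ((Real.sqrt a : ℝ) : ℂ) ^ 2 = (a : ℂ) := by
    rw [← Complex.ofReal_pow, Real.sq_sqrt ha.le]
  rw [← h1, sq_eq_sq_iff_eq_or_eq_neg] at h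
  rcases h with h | h
  · rw [h, Complex.conj_ofReal]
  · rw [h, map_neg, Complex.conj_ofReal]

lemma sign_change {K : Type} [Field K] [NumberField K] [IsSplittingField ℚ K GQ]
    (θ : Fin 3 → K) (hr : ∀ i, θ i ^ 6 - 14 * θ i ^ 2 + 6 = 0)
    (hinj : ∀ i j, θ i ^ 2 = θ j ^ 2 → i = j) (i : Fin 3) :
    ∃ σ : K ≃ₐ[ℚ] K, σ (θ i) = - θ i ∧ ∀ l, l ≠ i → σ (θ l) = θ l := by
  have hnorm := normal (K := K)
  have hgal : IsGalois ℚ K := isGalois_iff.mpr ⟨inferInstance, hnorm⟩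
  obtain ⟨a1, a2, a3, h1, h2, h3, h23, e1, e2, e3⟩ := real_roots
  have E1 : ((a1 : ℂ)) ^ 3 - 14 * a1 + 6 = 0 := by exact_mod_cast congrArg (fun x : ℝ => (x : ℂ)) e1
  have E2 : ((a2 : ℂ)) ^ 3 - 14 * a2 + 6 = 0 := by exact_mod_cast congrArg (fun x : ℝ => (x : ℂ)) e2
  have E3 : ((a3 : ℂ)) ^ 3 - 14 * a3 + 6 = 0 := by exact_mod_cast congrArg (fun x : ℝ => (x : ℂ)) e3
  set z0 : ℂ := Complex.I * ((Real.sqrt (-a1) : ℝ) : ℂ) with hz0
  have hz0sq : z0 ^ 2 = (a1 : ℂ) := by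
    rw [hz0, mul_pow, Complex.I_sq, ← Complex.ofReal_pow, Real.sq_sqrt (by linarith)]
    push_cast; ring
  have hz0r : z0 ^ 6 - 14 * z0 ^ 2 + 6 = 0 := by
    have : z0 ^ 6 = (z0 ^ 2) ^ 3 := by ring
    rw [this, hz0sq]; exact E1
  have hz0c : (starRingEnd ℂ) z0 = - z0 := by
    rw [hz0, map_mul, Complex.conj_I, Complex.conj_ofReal]; ring
  let ψ0 : K →ₐ[ℚ] ℂ := IsAlgClosed.lift
  obtain ⟨ξ, hξ, hξz⟩ := lift_root ψ0 hz0r
  obtain ⟨σ0, hσ0⟩ := conj_roots (hr i) hξ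
  let ψ : K →+* ℂ := (ψ0 : K →+* ℂ).comp (σ0 : K →+* K)
  have hψi : ψ (θ i) = z0 := by
    change ψ0 (σ0 (θ i)) = z0
    rw [hσ0, hξz]
  obtain ⟨σ, hσ⟩ := NumberField.ComplexEmbedding.exists_comp_symm_eq_of_comp_eq (k := ℚ)
    ψ ((starRingEnd ℂ).comp ψ) (Subsingleton.elim _ _)
  have hσ' : ∀ x : K, ψ (σ.symm x) = (starRingEnd ℂ) (ψ x) := fun x => RingHom.congr_fun hσ x
  refine ⟨σ.symm, ?_, ?_⟩
  · apply ψ.injective
    rw [hσ', hψi, hz0c, map_neg, hψi]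
  · intro l hl
    apply ψ.injective
    rw [hσ']
    have hw : (ψ (θ l)) ^ 6 - 14 * (ψ (θ l)) ^ 2 + 6 = 0 := by
      have := congrArg ψ (hr l)
      simp only [map_add, map_sub, map_mul, map_pow, map_ofNat, map_zero] at this
      exact this
    have c12 : (a1 : ℂ) ≠ a2 := by
      intro h; have : a1 = a2 := by exact_mod_cast h
      linarith
    have c13 : (a1 : ℂ) ≠ a3 := by
      intro h; have : a1 = a3 := by exact_mod_cast h
      linarith
    have c23 : (a2 : ℂ) ≠ a3 := by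
      intro h; have : a2 = a3 := by exact_mod_cast h
      linarith
    rw [factor E1 E2 E3 c12 c13 c23] at hw
    rcases mul_eq_zero.mp hw with hw | hw
    · rcases mul_eq_zero.mp hw with hw | hw
      · exfalso
        apply hl
        apply hinj
        apply ψ.injective
        rw [map_pow, map_pow, hψi, hz0sq]
        linear_combination hw
      · exact real_of_sq h2 (by linear_combination hw)
    · exact real_of_sq h3 (by linear_combination hw)

end T2Aux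

open T2Aux in
theorem t2 : T2 := by
  obtain ⟨K, hF, hN, hS⟩ := exists_field
  refine ⟨K, hF, hN, ?_⟩
  obtain ⟨t, ht, htinj⟩ := roots_Q7
  let τ : K →ₐ[ℚ] ℚ_[7] := IsSplittingField.lift K GQ (splits_of_roots t ht htinj)
  choose θ hθ hθt using fun i => lift_root τ (ht i)
  have hinj : ∀ i j, θ i ^ 2 = θ j ^ 2 → i = j := by
    intro i j h
    apply htinj
    rw [← hθt i, ← hθt j, ← map_pow, ← map_pow, h]
  exact ⟨{ θ := θ
           root := hθ
           sq_inj := hinj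
           trans := fun i l => conj_roots (hθ i) (hθ l)
           sgn := fun i => sign_change θ hθ hinj i
           split := card_hom τ }⟩

end Pool.Agent.H441R2.Pad
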