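import Pool.Agent.H441R2.Pad.Task2

/-!
Task T3: multiplicative independence of the twelve elements `u i j`.
-/

set_option autoImplicit false

namespace Pool.Agent.H441R2.Pad

open Polynomial

namespace T3Aux

/-- the value of the polynomial at an integer -/
def gv (x : ℤ) : ℤ := x ^ 6 - 14 * x ^ 2 + 6

/-- the value of the derivative at an integer -/
def dv (x : ℤ) : ℤ := 6 * x ^ 5 - 28 * x

lemma cop_gg (j j' : Fin 4) (h : j ≠ j') : IsCoprime (gv (xs j)) (gv (xs j')) := by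
  rw [Int.isCoprime_iff_gcd_eq_one]
  fin_cases j <;> fin_cases j' <;> first | exact absurd rfl h | norm_num [gv, xs]

lemma cop_gd (j : Fin 4) : IsCoprime (gv (xs j)) (dv (xs j)) := by
  rw [Int.isCoprime_iff_gcd_eq_one]
  fin_cases j <;> norm_num [gv, dv, xs]

lemma gv_big (j : Fin 4) : 1 < gv (xs j) := by
  fin_cases j <;> norm_num [gv, xs]

lemma not_both {R : Type*} [CommRing R] [Nontrivial R] {a b : ℤ} (h : IsCoprime a b)
    (ha : (a : R) = 0) (hb : (b : R) = 0) : False := by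
  obtain ⟨c, d, hcd⟩ := h
  have : ((c * a + d * b : ℤ) : R) = ((1 : ℤ) : R) := by rw [hcd]
  push_cast at this
  rw [ha, hb] at this
  simp at this

/-- two of the 24 elements cannot vanish simultaneously -/
lemma abs_lemma {R : Type*} [CommRing R] [Nontrivial R] (t : Fin 3 → R)
    (e1 : t 0 ^ 2 + t 1 ^ 2 + t 2 ^ 2 = 0)
    (e2 : t 0 ^ 2 * t 1 ^ 2 + t 0 ^ 2 * t 2 ^ 2 + t 1 ^ 2 * t 2 ^ 2 = -14)
    (e3 : t 0 ^ 2 * t 1 ^ 2 * t 2 ^ 2 = -6) (i i' : Fin 3) (s s' : ℤ) (hs : s = 1 ∨ s = -1)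
    (hs' : s' = 1 ∨ s' = -1) (j j' : Fin 4) (h : t i + s * xs j = 0)
    (h' : t i' + s' * xs j' = 0) : i = i' ∧ s = s' ∧ j = j' := by
  have hG : ∀ x : ℤ, ((gv x : ℤ) : R) =
      ((x : R) ^ 2 - t 0 ^ 2) * ((x : R) ^ 2 - t 1 ^ 2) * ((x : R) ^ 2 - t 2 ^ 2) := by
    intro x
    unfold gv; push_cast
    linear_combination (x : R) ^ 4 * e1 - (x : R) ^ 2 * e2 + e3
  have hD : ∀ x : ℤ, ((dv x : ℤ) : R) = 2 * x *
      (((x : R) ^ 2 - t 1 ^ 2) * ((x : R) ^ 2 - t 2 ^ 2) +
        ((x : R) ^ 2 - t 0 ^ 2) * ((x : R) ^ 2 - t 2 ^ 2) +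
        ((x : R) ^ 2 - t 0 ^ 2) * ((x : R) ^ 2 - t 1 ^ 2)) := by
    intro x
    unfold dv; push_cast
    linear_combination 4 * (x : R) ^ 3 * e1 - 2 * (x : R) * e2
  have hsq : ∀ (i : Fin 3) (s : ℤ) (j : Fin 4), (s = 1 ∨ s = -1) → t i + s * xs j = 0 →
      (xs j : R) ^ 2 - t i ^ 2 = 0 := by
    intro i s j hs h
    have hs2 : (s : R) ^ 2 = 1 := by rcases hs with rfl | rfl <;> simp
    have : t i = - (s * xs j) := by linear_combination h
    rw [this]
    linear_combination -(xs j : R) ^ 2 * hs2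
  have hz : ∀ (i : Fin 3) (s : ℤ) (j : Fin 4), (s = 1 ∨ s = -1) → t i + s * xs j = 0 →
      ((gv (xs j) : ℤ) : R) = 0 := by
    intro i s j hs h
    have h1 := hsq i s j hs h
    rw [hG]
    fin_cases i
    · simp only [Fin.zero_eta] at h1
      rw [h1]; ring
    · simp only [Fin.mk_one] at h1
      rw [h1]; ring
    · simp only [Fin.reduceFinMk] at h1
      rw [h1]; ring
  by_cases hj : j = j'
  · subst hj
    by_cases hi : i = i'
    · subst hi
      by_cases hss : s = s'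
      · exact ⟨rfl, hss, rfl⟩
      · exfalso
        apply not_both (R := R) (cop_gd j) (hz i s j hs h)
        have h2 : 2 * (xs j : R) = 0 := by
          rcases hs with rfl | rfl <;> rcases hs' with rfl | rfl
          · exact absurd rfl hss
          · push_cast at h h'; linear_combination h - h'
          · push_cast at h h'; linear_combination h' - h
          · exact absurd rfl hss
        rw [hD, h2]; ring
    · exfalso
      apply not_both (R := R) (cop_gd j) (hz i s j hs h)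
      have h1 := hsq i s j hs h
      have h2 := hsq i' s' j hs' h'
      rw [hD]
      fin_cases i <;> fin_cases i' <;>
        simp only [Fin.zero_eta, Fin.mk_one, Fin.reduceFinMk, ne_eq, not_true_eq_false] at h1 h2 hi ⊢ <;>
        rw [h1, h2] <;> ring
  · exact absurd (not_both (R := R) (cop_gg j j' hj) (hz i s j hs h) (hz i' s' j' hs' h')) id

variable {K : Type} [Field K] [NumberField K] (D : FieldData K)

lemma vietaK : D.θ 0 ^ 2 + D.θ 1 ^ 2 + D.θ 2 ^ 2 = 0 ∧
    D.θ 0 ^ 2 * D.θ 1 ^ 2 + D.θ 0 ^ 2 * D.θ 2 ^ 2 + D.θ 1 ^ 2 * D.θ 2 ^ 2 = -14 ∧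
    D.θ 0 ^ 2 * D.θ 1 ^ 2 * D.θ 2 ^ 2 = -6 :=
  T2Aux.vieta (T2Aux.cubic (D.root 0)) (T2Aux.cubic (D.root 1)) (T2Aux.cubic (D.root 2))
    (fun h => absurd (D.sq_inj _ _ h) (by decide)) (fun h => absurd (D.sq_inj _ _ h) (by decide))
    (fun h => absurd (D.sq_inj _ _ h) (by decide))

lemma int_θ (i : Fin 3) : IsIntegral ℤ (D.θ i) := by
  refine ⟨T2Aux.GZ, T2Aux.GZ_monic, ?_⟩
  have := T2Aux.aeval_GZ (D.θ i)
  rw [D.root i] at this
  exact this

open NumberField in
/-- the root as an algebraic integer -/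
noncomputable def vt (i : Fin 3) : 𝓞 K := ⟨D.θ i, int_θ D i⟩

open NumberField in
lemma vt_val (i : Fin 3) : algebraMap (𝓞 K) K (vt D i) = D.θ i := rfl

open NumberField in
/-- the 24 algebraic integers -/
noncomputable def el (i : Fin 3) (s : ℤ) (j : Fin 4) : 𝓞 K := vt D i + (s : 𝓞 K) * (xs j : 𝓞 K)

open NumberField in
lemma el_val (i : Fin 3) (s : ℤ) (j : Fin 4) :
    algebraMap (𝓞 K) K (el D i s j) = D.θ i + (s : K) * (xs j : K) := by
  unfold el
  rw [map_add, map_mul, map_intCast, map_intCast, vt_val]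

open NumberField in
lemma vietaO : vt D 0 ^ 2 + vt D 1 ^ 2 + vt D 2 ^ 2 = 0 ∧
    vt D 0 ^ 2 * vt D 1 ^ 2 + vt D 0 ^ 2 * vt D 2 ^ 2 + vt D 1 ^ 2 * vt D 2 ^ 2 = -14 ∧
    vt D 0 ^ 2 * vt D 1 ^ 2 * vt D 2 ^ 2 = -6 := by
  obtain ⟨h1, h2, h3⟩ := vietaK D
  have hinj : Function.Injective (algebraMap (𝓞 K) K) := RingOfIntegers.coe_injective
  refine ⟨hinj ?_, hinj ?_, hinj ?_⟩
  · simp only [map_add, map_pow, vt_val, map_zero]; exact h1
  · simp only [map_add, map_mul, map_pow, vt_val, map_neg, map_ofNat]; exact h2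
  · simp only [map_mul, map_pow, vt_val, map_neg, map_ofNat]; exact h3

open NumberField in
/-- a prime ideal contains at most one of the 24 elements -/
lemma prime_unique (Q : Ideal (𝓞 K)) [hQ : Q.IsPrime] (i i' : Fin 3) (s s' : ℤ)
    (hs : s = 1 ∨ s = -1) (hs' : s' = 1 ∨ s' = -1) (j j' : Fin 4) (h : el D i s j ∈ Q)
    (h' : el D i' s' j' ∈ Q) : i = i' ∧ s = s' ∧ j = j' := by
  have hnt : Nontrivial (𝓞 K ⧸ Q) := Ideal.Quotient.nontrivial_iff.mpr hQ.ne_top
  obtain ⟨h1, h2, h3⟩ := vietaO D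
  refine abs_lemma (R := 𝓞 K ⧸ Q) (fun i => Ideal.Quotient.mk Q (vt D i)) ?_ ?_ ?_ i i' s s' hs hs'
    j j' ?_ ?_
  · have := congrArg (Ideal.Quotient.mk Q) h1
    simpa only [map_add, map_pow, map_zero] using this
  · have := congrArg (Ideal.Quotient.mk Q) h2
    simpa only [map_add, map_mul, map_pow, map_neg, map_ofNat] using this
  · have := congrArg (Ideal.Quotient.mk Q) h3
    simpa only [map_add, map_mul, map_pow, map_neg, map_ofNat] using this
  · have := Ideal.Quotient.eq_zero_iff_mem.mpr h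
    unfold el at this
    simpa only [map_add, map_mul, map_intCast] using this
  · have := Ideal.Quotient.eq_zero_iff_mem.mpr h'
    unfold el at this
    simpa only [map_add, map_mul, map_intCast] using this

/-- the inverses of the 24 elements are not integral -/
lemma not_integral_inv (i0 : Fin 3) (s0 : ℤ) (hs0 : s0 = 1 ∨ s0 = -1) (j : Fin 4) :
    ¬ IsIntegral ℤ (D.θ i0 + (s0 : K) * (xs j : K))⁻¹ := by
  intro h
  have step1 : ∀ k, IsIntegral ℤ (D.θ k + (s0 : K) * (xs j : K))⁻¹ := by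
    intro k
    obtain ⟨σ, hσ⟩ := D.trans i0 k
    have := map_isIntegral_int σ h
    rw [map_inv₀, map_add, map_mul, map_intCast, map_intCast, hσ] at this
    exact this
  have step2 : ∀ k, IsIntegral ℤ (D.θ k - (s0 : K) * (xs j : K))⁻¹ := by
    intro k
    obtain ⟨σ, hσ, _⟩ := D.sgn k
    have h1 := map_isIntegral_int σ (step1 k)
    rw [map_inv₀, map_add, map_mul, map_intCast, map_intCast, hσ] at h1
    have h2 := h1.neg
    rw [← inv_neg] at h2
    have e : -(-D.θ k + (s0 : K) * (xs j : K)) = D.θ k - (s0 : K) * (xs j : K) := by ring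
    rwa [e] at h2
  have hs2 : (s0 : K) ^ 2 = 1 := by rcases hs0 with rfl | rfl <;> simp
  obtain ⟨h1, h2, h3⟩ := vietaK D
  have h4 := (((step1 0).mul (step2 0)).mul ((step1 1).mul (step2 1))).mul
    ((step1 2).mul (step2 2))
  rw [← mul_inv, ← mul_inv, ← mul_inv, ← mul_inv, ← mul_inv] at h4
  have e : (D.θ 0 + (s0 : K) * (xs j : K)) * (D.θ 0 - (s0 : K) * (xs j : K)) *
      ((D.θ 1 + (s0 : K) * (xs j : K)) * (D.θ 1 - (s0 : K) * (xs j : K))) *
      ((D.θ 2 + (s0 : K) * (xs j : K)) * (D.θ 2 - (s0 : K) * (xs j : K))) =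
      algebraMap ℚ K (-(gv (xs j) : ℚ)) := by
    have e0 : ∀ k, (D.θ k + (s0 : K) * (xs j : K)) * (D.θ k - (s0 : K) * (xs j : K)) =
        D.θ k ^ 2 - (xs j : K) ^ 2 := by
      intro k; linear_combination -(xs j : K) ^ 2 * hs2
    rw [e0, e0, e0]
    simp only [map_neg, map_intCast, eq_ratCast, Rat.cast_neg, Rat.cast_intCast]
    unfold gv
    push_cast
    linear_combination (xs j : K) ^ 4 * h1 - (xs j : K) ^ 2 * h2 + h3
  rw [e, ← map_inv₀] at h4
  have h5 : IsIntegral ℤ (-(gv (xs j) : ℚ))⁻¹ :=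
    (isIntegral_algebraMap_iff (algebraMap ℚ K).injective).mp h4
  obtain ⟨n, hn⟩ := IsIntegrallyClosed.isIntegral_iff.mp h5
  have hbig := gv_big j
  have h6 : (n : ℚ) * (-(gv (xs j) : ℚ)) = 1 := by
    have hne : (-(gv (xs j) : ℚ)) ≠ 0 := by
      have : (gv (xs j) : ℚ) ≠ 0 := by exact_mod_cast (by omega : gv (xs j) ≠ 0)
      simpa using this
    rw [show (n : ℚ) = algebraMap ℤ ℚ n from (eq_intCast (algebraMap ℤ ℚ) n).symm, hn,
      inv_mul_cancel₀ hne]
  have h7 : n * (-(gv (xs j))) = 1 := by exact_mod_cast h6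
  have h8 : IsUnit (-(gv (xs j))) := IsUnit.of_mul_eq_one_right _ h7
  rw [Int.isUnit_iff] at h8
  omega

open NumberField in
lemma not_unit (i : Fin 3) (s : ℤ) (hs : s = 1 ∨ s = -1) (j : Fin 4) : ¬ IsUnit (el D i s j) := by
  intro h
  obtain ⟨v, hv⟩ := h.exists_right_inv
  apply not_integral_inv D i s hs j
  have h1 := congrArg (algebraMap (𝓞 K) K) hv
  rw [map_mul, el_val, map_one] at h1
  have h2 : (D.θ i + (s : K) * (xs j : K))⁻¹ = algebraMap (𝓞 K) K v :=
    inv_eq_of_mul_eq_one_right h1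
  rw [h2]
  exact RingOfIntegers.isIntegral_coe v

open NumberField in
lemma nonpos (m : Fin 3 → Fin 4 → ℤ) (h : (∏ i, ∏ j, (D.u i j) ^ (m i j)) = 1)
    (i0 : Fin 3) (j0 : Fin 4) : m i0 j0 ≤ 0 := by
  by_contra hpos
  push Not at hpos
  -- pass to `K`
  have hK : ∏ i, ∏ j, ((D.u i j : Kˣ) : K) ^ (m i j) = 1 := by
    have := congrArg (fun x : Kˣ => (x : K)) h
    simpa using this
  set a : Fin 3 → Fin 4 → 𝓞 K := fun i j => el D i (-1) j with ha
  set b : Fin 3 → Fin 4 → 𝓞 K := fun i j => el D i 1 j with hb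
  have hav : ∀ i j, algebraMap (𝓞 K) K (a i j) = D.θ i - (xs j : K) := by
    intro i j; rw [ha]; simp only [el_val]; push_cast; ring
  have hbv : ∀ i j, algebraMap (𝓞 K) K (b i j) = D.θ i + (xs j : K) := by
    intro i j; rw [hb]; simp only [el_val]; push_cast; ring
  have hO : ∏ i, ∏ j, (a i j ^ (m i j).toNat * b i j ^ (-(m i j)).toNat) =
      ∏ i, ∏ j, (b i j ^ (m i j).toNat * a i j ^ (-(m i j)).toNat) := by
    apply (RingOfIntegers.coe_injective : Function.Injective (algebraMap (𝓞 K) K))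
    simp only [map_prod, map_mul, map_pow, hav, hbv]
    have key : ∀ i j, (D.θ i - (xs j : K)) ^ (m i j).toNat * (D.θ i + (xs j : K)) ^ (-(m i j)).toNat =
        ((D.u i j : Kˣ) : K) ^ (m i j) *
        ((D.θ i + (xs j : K)) ^ (m i j).toNat * (D.θ i - (xs j : K)) ^ (-(m i j)).toNat) := by
      intro i j
      have na := D.sub_ne i j
      have nb := D.add_ne i j
      rw [D.u_val]
      rcases le_total 0 (m i j) with hm | hm
      · obtain ⟨n, hn⟩ := Int.eq_ofNat_of_zero_le hm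
        rw [hn]
        simp only [Int.toNat_natCast, Int.toNat_neg_natCast, pow_zero, mul_one, zpow_natCast]
        rw [div_pow, div_mul_cancel₀]
        exact pow_ne_zero _ nb
      · obtain ⟨n, hn⟩ := Int.eq_ofNat_of_zero_le (neg_nonneg.mpr hm)
        have hn' : m i j = -(n : ℤ) := by omega
        rw [hn']
        simp only [neg_neg, Int.toNat_natCast, Int.toNat_neg_natCast, pow_zero, one_mul, zpow_neg,
          zpow_natCast]
        rw [div_pow, inv_div, div_mul_cancel₀]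
        exact pow_ne_zero _ na
    calc ∏ i, ∏ j, (D.θ i - (xs j : K)) ^ (m i j).toNat * (D.θ i + (xs j : K)) ^ (-(m i j)).toNat
        = ∏ i, ∏ j, (((D.u i j : Kˣ) : K) ^ (m i j) *
          ((D.θ i + (xs j : K)) ^ (m i j).toNat * (D.θ i - (xs j : K)) ^ (-(m i j)).toNat)) := by
          apply Finset.prod_congr rfl; intro i _
          apply Finset.prod_congr rfl; intro j _
          exact key i j
      _ = (∏ i, ∏ j, ((D.u i j : Kˣ) : K) ^ (m i j)) *
          ∏ i, ∏ j, ((D.θ i + (xs j : K)) ^ (m i j).toNat * (D.θ i - (xs j : K)) ^ (-(m i j)).toNat) := by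
          rw [← Finset.prod_mul_distrib]
          apply Finset.prod_congr rfl; intro i _
          rw [← Finset.prod_mul_distrib]
      _ = _ := by rw [hK, one_mul]
  obtain ⟨Q, hQmax, hQa⟩ := exists_max_ideal_of_mem_nonunits
    (show a i0 j0 ∈ nonunits (𝓞 K) from not_unit D i0 (-1) (Or.inr rfl) j0)
  have hQ : Q.IsPrime := hQmax.isPrime
  have hA : ∏ i, ∏ j, (a i j ^ (m i j).toNat * b i j ^ (-(m i j)).toNat) ∈ Q := by
    have hd : a i0 j0 ∣ ∏ i, ∏ j, (a i j ^ (m i j).toNat * b i j ^ (-(m i j)).toNat) := by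
      refine dvd_trans ?_ (Finset.dvd_prod_of_mem _ (Finset.mem_univ i0))
      refine dvd_trans ?_ (Finset.dvd_prod_of_mem _ (Finset.mem_univ j0))
      exact dvd_mul_of_dvd_left (dvd_pow_self _ (by omega)) _
    exact Q.mem_of_dvd hd hQa
  rw [hO] at hA
  rw [hQ.prod_mem_iff] at hA
  obtain ⟨i, _, hA⟩ := hA
  rw [hQ.prod_mem_iff] at hA
  obtain ⟨j, _, hA⟩ := hA
  rcases hQ.mem_or_mem hA with hA | hA
  · have h1 := hQ.mem_of_pow_mem _ hA
    have h2 := prime_unique D Q i0 i (-1) 1 (Or.inr rfl) (Or.inl rfl) j0 j hQa h1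
    exact absurd h2.2.1 (by norm_num)
  · rcases Nat.eq_zero_or_pos (-(m i j)).toNat with h0 | h0
    · rw [h0, pow_zero] at hA
      exact hQ.ne_top ((Ideal.eq_top_iff_one Q).mpr hA)
    · have h1 := hQ.mem_of_pow_mem _ hA
      have h2 := prime_unique D Q i0 i (-1) (-1) (Or.inr rfl) (Or.inr rfl) j0 j hQa h1
      rw [← h2.1, ← h2.2.2] at h0
      omega

end T3Aux

open T3Aux in
theorem t3 : T3 := by
  intro K _ _ D m h
  have h' : (∏ i, ∏ j, (D.u i j) ^ ((-m) i j)) = 1 := by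
    have : (∏ i, ∏ j, (D.u i j) ^ ((-m) i j)) = (∏ i, ∏ j, (D.u i j) ^ (m i j))⁻¹ := by
      simp only [Pi.neg_apply, zpow_neg, Finset.prod_inv_distrib]
    rw [this, h, inv_one]
  funext i j
  have h1 := nonpos D m h i j
  have h2 := nonpos D (-m) h' i j
  simp only [Pi.neg_apply] at h2
  change m i j = 0
  omega

end Pool.Agent.H441R2.Pad
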