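import Mathlib
import Pool.Agent.H441R2.Pad.Final
import Pool.Agent.H441R2.Pad.Task2
import Pool.Agent.H441R2.Pad.Task3

set_option autoImplicit false

/-!
# The `p`-adic part of the expected answer fails for some `R_{K/ℚ}(𝔾_m)`
-/

namespace Pool.Agent.H441R2.Pad

/-- There are a number field `K` and a prime `p` such that the `p`-adic part of the expected
answer fails for `R_{K/ℚ}(𝔾_m)`. -/
theorem exists_not_expectedAnswerPadic : ∃ (K : Type) (_ : Field K) (_ : NumberField K) (p : ℕ)
    (_ : Fact p.Prime), ¬ ExpectedAnswerPadic K p := by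
  obtain ⟨K, hF, hN, ⟨D⟩⟩ := t2
  exact ⟨K, hF, hN, 7, inferInstance, D.L_counterexample (t3 K D)⟩

end Pool.Agent.H441R2.Pad
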